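import Mathlib

open Finset

namespace NH97.QC

/-- The polynomial weight `p_k(Y) = ∏_{i<k} (q - Q^i Y) ∏_{k ≤ i < n-1} (Y - Q^{i+1})`. -/
def pk {A : Type*} [CommRing A] (q Q : A) (n k : ℕ) (Y : A) : A :=
  (∏ i ∈ range k, (q - Q ^ i * Y)) * ∏ i ∈ Ico k (n - 1), (Y - Q ^ (i + 1))

/-- The quadratic weight `P_k(t) = p_k(X) p_k(1/X)` with `t = X + 1/X - 2`. -/
def Pk {A : Type*} [CommRing A] (q Q : A) (n k : ℕ) (t : A) : A :=
  (∏ i ∈ range k, ((q - Q ^ i) ^ 2 - q * Q ^ i * t)) *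
    ∏ i ∈ Ico k (n - 1), ((1 - Q ^ (i + 1)) ^ 2 - Q ^ (i + 1) * t)

/-- The very-well-poised factor. -/
def ek {A : Type*} [CommRing A] (q Q : A) (u k : ℕ) : A := (q - Q ^ (2 * k)) * Q ^ (u * k)

theorem map_pk {A B : Type*} [CommRing A] [CommRing B] (f : A →+* B) (q Q : A) (n k : ℕ) (Y : A) :
    f (pk q Q n k Y) = pk (f q) (f Q) n k (f Y) := by
  simp [pk, map_prod]

theorem map_Pk {A B : Type*} [CommRing A] [CommRing B] (f : A →+* B) (q Q : A) (n k : ℕ) (t : A) :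
    f (Pk q Q n k t) = Pk (f q) (f Q) n k (f t) := by
  simp [Pk, map_prod]

theorem map_ek {A B : Type*} [CommRing A] [CommRing B] (f : A →+* B) (q Q : A) (u k : ℕ) :
    f (ek q Q u k) = ek (f q) (f Q) u k := by
  simp [ek]

theorem pk_mul_pk {A : Type*} [CommRing A] (q Q : A) (n k : ℕ) (X Y : A) (h : X * Y = 1) :
    pk q Q n k X * pk q Q n k Y = Pk q Q n k (X + Y - 2) := by
  unfold pk Pk
  have e1 : (∏ i ∈ range k, (q - Q ^ i * X)) * (∏ i ∈ range k, (q - Q ^ i * Y))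
      = ∏ i ∈ range k, ((q - Q ^ i) ^ 2 - q * Q ^ i * (X + Y - 2)) := by
    rw [← prod_mul_distrib]
    apply prod_congr rfl
    intro i _
    linear_combination (Q ^ i * Q ^ i) * h
  have e2 : (∏ i ∈ Ico k (n - 1), (X - Q ^ (i + 1))) * (∏ i ∈ Ico k (n - 1), (Y - Q ^ (i + 1)))
      = ∏ i ∈ Ico k (n - 1), ((1 - Q ^ (i + 1)) ^ 2 - Q ^ (i + 1) * (X + Y - 2)) := by
    rw [← prod_mul_distrib]
    apply prod_congr rfl
    intro i _
    linear_combination h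
  rw [← e1, ← e2]
  ring

theorem Pk_zero {A : Type*} [CommRing A] (q Q : A) (n k : ℕ) :
    Pk q Q n k 0 = pk q Q n k 1 ^ 2 := by
  have := pk_mul_pk q Q n k 1 1 (by ring)
  rw [show (1 : A) + 1 - 2 = 0 by ring] at this
  rw [← this]; ring

theorem pk_succ {A : Type*} [CommRing A] (q Q : A) (n k : ℕ) (Y : A) (hk : k < n - 1) :
    pk q Q n (k + 1) Y * (Y - Q ^ (k + 1)) = pk q Q n k Y * (q - Q ^ k * Y) := by
  unfold pk
  rw [prod_range_succ, prod_eq_prod_Ico_succ_bot hk]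
  ring

section field

variable {K : Type*} [Field K]

/-- The nodes. -/
def xk (q Q : K) (k : ℕ) : K := (Q ^ k)⁻¹ + q⁻¹ * Q ^ k

theorem xk_sub (q Q : K) (hQ : Q ≠ 0) (k j : ℕ) :
    xk q Q k - xk q Q j = ((Q ^ k)⁻¹ - (Q ^ j)⁻¹) * (1 - q⁻¹ * Q ^ (k + j)) := by
  unfold xk
  have h1 : Q ^ k ≠ 0 := pow_ne_zero _ hQ
  have h2 : Q ^ j ≠ 0 := pow_ne_zero _ hQ
  rw [pow_add]
  field_simp
  ring

/-- The product of node differences. -/
def Dk (q Q : K) (M k : ℕ) : K := ∏ j ∈ (range (M + 1)).erase k, (xk q Q k - xk q Q j)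

theorem prod_erase_eq (M k : ℕ) (hk : k ≤ M) (f : ℕ → K) :
    ∏ j ∈ (range (M + 1)).erase k, f j = ∏ j ∈ range (M + 1), (if j = k then 1 else f j) := by
  rw [← mul_prod_erase (range (M + 1)) (fun j => if j = k then 1 else f j)
    (mem_range.mpr (by omega : k < M + 1))]
  simp only [if_true, one_mul]
  apply prod_congr rfl
  intro j hj
  rw [if_neg (ne_of_mem_erase hj)]

theorem Dk_eq (q Q : K) (hQ : Q ≠ 0) (M k : ℕ) (hk : k ≤ M) :
    Dk q Q M k = (∏ j ∈ range (M + 1), (if j = k then 1 else ((Q ^ k)⁻¹ - (Q ^ j)⁻¹))) *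
      ∏ j ∈ range (M + 1), (if j = k then 1 else (1 - q⁻¹ * Q ^ (k + j))) := by
  unfold Dk
  rw [prod_erase_eq M k hk, ← prod_mul_distrib]
  apply prod_congr rfl
  intro j _
  split_ifs
  · simp
  · exact xk_sub q Q hQ k j

theorem beta_prod (q Q : K) (M k : ℕ) (hk : k ≤ M) :
    (∏ j ∈ range (M + 1), (if j = k then 1 else (1 - q⁻¹ * Q ^ (k + j)))) *
      (1 - q⁻¹ * Q ^ (2 * k)) = ∏ j ∈ range (M + 1), (1 - q⁻¹ * Q ^ (k + j)) := by
  rw [← prod_erase_eq M k hk, two_mul]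
  exact prod_erase_mul (range (M + 1)) (fun j => (1 - q⁻¹ * Q ^ (k + j)))
    (mem_range.mpr (by omega))

theorem beta_shift (q Q : K) (M k : ℕ) :
    (∏ j ∈ range (M + 1), (1 - q⁻¹ * Q ^ (k + 1 + j))) * (1 - q⁻¹ * Q ^ k)
      = (∏ j ∈ range (M + 1), (1 - q⁻¹ * Q ^ (k + j))) * (1 - q⁻¹ * Q ^ (k + M + 1)) := by
  have h1 := prod_range_succ (fun j => (1 - q⁻¹ * Q ^ (k + j))) (M + 1)
  have h2 := prod_range_succ' (fun j => (1 - q⁻¹ * Q ^ (k + j))) (M + 1)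
  have h3 : ∏ j ∈ range (M + 1), (1 - q⁻¹ * Q ^ (k + 1 + j)) =
      ∏ j ∈ range (M + 1), (1 - q⁻¹ * Q ^ (k + (j + 1))) := by
    apply prod_congr rfl
    intro j _
    rw [show k + 1 + j = k + (j + 1) by ring]
  rw [h3]
  simp only [add_zero] at h2
  rw [← h2, h1, add_assoc k M 1]

theorem alpha_shift (Q : K) (hQ : Q ≠ 0) (M k : ℕ) (hk : k < M) :
    (∏ j ∈ range (M + 1), (if j = k + 1 then 1 else ((Q ^ (k + 1))⁻¹ - (Q ^ j)⁻¹))) *
      (Q ^ M - Q ^ k) =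
    (∏ j ∈ range (M + 1), (if j = k then 1 else ((Q ^ k)⁻¹ - (Q ^ j)⁻¹))) *
      (1 - Q ^ (k + 1)) := by
  rw [prod_range_succ' (fun j => if j = k + 1 then 1 else ((Q ^ (k + 1))⁻¹ - (Q ^ j)⁻¹)) M,
    prod_range_succ (fun j => if j = k then 1 else ((Q ^ k)⁻¹ - (Q ^ j)⁻¹)) M]
  rw [if_neg (by omega : ¬ (0 = k + 1)), if_neg (by omega : ¬ (M = k))]
  have e : ∏ j ∈ range M, (if j + 1 = k + 1 then 1 else ((Q ^ (k + 1))⁻¹ - (Q ^ (j + 1))⁻¹))
      = (∏ j ∈ range M, (if j = k then 1 else ((Q ^ k)⁻¹ - (Q ^ j)⁻¹))) * (Q⁻¹) ^ (M - 1) := by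
    have e1 : ∀ j ∈ range M, (if j + 1 = k + 1 then 1 else ((Q ^ (k + 1))⁻¹ - (Q ^ (j + 1))⁻¹))
        = (if j = k then 1 else ((Q ^ k)⁻¹ - (Q ^ j)⁻¹)) * (if j = k then 1 else Q⁻¹) := by
      intro j _
      by_cases hj : j = k
      · simp [hj]
      · rw [if_neg (by omega), if_neg hj, if_neg hj, pow_succ, pow_succ, mul_inv, mul_inv]
        ring
    rw [prod_congr rfl e1, prod_mul_distrib]
    congr 1
    obtain ⟨M', rfl⟩ : ∃ M', M = M' + 1 := ⟨M - 1, by omega⟩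
    rw [← prod_erase_eq M' k (by omega), prod_const, card_erase_of_mem (mem_range.mpr hk),
      card_range]
  rw [e]
  obtain ⟨r, rfl⟩ : ∃ r, M = k + 1 + r := ⟨M - (k + 1), by omega⟩
  have h1 : Q ^ k ≠ 0 := pow_ne_zero _ hQ
  have h2 : Q ^ r ≠ 0 := pow_ne_zero _ hQ
  rw [show k + 1 + r - 1 = k + r by omega]
  simp only [pow_add, pow_one, inv_pow]
  field_simp

/-- Recursion for the products of node differences. -/
theorem Dk_succ (q Q : K) (hq : q ≠ 0) (hQ : Q ≠ 0) (M k : ℕ) (hk : k < M) :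
    Dk q Q M (k + 1) * ((q - Q ^ (2 * (k + 1))) * (q - Q ^ k) * (Q ^ M - Q ^ k)) =
    Dk q Q M k * ((1 - Q ^ (k + 1)) * (q - Q ^ (M + k + 1)) * (q - Q ^ (2 * k))) := by
  rw [Dk_eq q Q hQ M (k + 1) (by omega), Dk_eq q Q hQ M k (by omega)]
  have hb1 := beta_prod q Q M (k + 1) (by omega)
  have hb0 := beta_prod q Q M k (by omega)
  have hs := beta_shift q Q M k
  have ha := alpha_shift Q hQ M k hk
  set A1 := ∏ j ∈ range (M + 1), (if j = k + 1 then 1 else ((Q ^ (k + 1))⁻¹ - (Q ^ j)⁻¹))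
  set A0 := ∏ j ∈ range (M + 1), (if j = k then 1 else ((Q ^ k)⁻¹ - (Q ^ j)⁻¹))
  set B1 := ∏ j ∈ range (M + 1), (if j = k + 1 then 1 else (1 - q⁻¹ * Q ^ (k + 1 + j)))
  set B0 := ∏ j ∈ range (M + 1), (if j = k then 1 else (1 - q⁻¹ * Q ^ (k + j)))
  set C1 := ∏ j ∈ range (M + 1), (1 - q⁻¹ * Q ^ (k + 1 + j))
  set C0 := ∏ j ∈ range (M + 1), (1 - q⁻¹ * Q ^ (k + j))
  have hx : ∀ z : K, 1 - q⁻¹ * z = q⁻¹ * (q - z) := fun z => by field_simp
  rw [hx] at hb1 hb0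
  rw [hx, hx] at hs
  rw [show k + M + 1 = M + k + 1 by ring] at hs
  have hqi : q⁻¹ ≠ 0 := inv_ne_zero hq
  have hs' : C1 * (q - Q ^ k) = C0 * (q - Q ^ (M + k + 1)) := by
    apply mul_left_cancel₀ hqi
    linear_combination hs
  have hb : B1 * (q - Q ^ (2 * (k + 1))) * (q - Q ^ k) =
      B0 * (q - Q ^ (2 * k)) * (q - Q ^ (M + k + 1)) := by
    apply mul_left_cancel₀ hqi
    rw [← hb1, ← hb0] at hs'
    linear_combination hs'
  linear_combination (B1 * (q - Q ^ (2 * (k + 1))) * (q - Q ^ k)) * ha +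
    (A0 * (1 - Q ^ (k + 1))) * hb

end field

end NH97.QC
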