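import Mathlib
import Pool.Agent.NH97.QC.Basic

open Finset

namespace NH97.QC

/-- The numerator sum with parameters. -/
def Num {A : Type*} [CommRing A] (q Q : A) (u n : ℕ) (Y1 Y0 X X' : A) : A :=
  ∑ k ∈ range n, ek q Q u k * pk q Q n k 1 * pk q Q n k Y1 * pk q Q n k Y0 *
    (pk q Q n k X * pk q Q n k X') ^ u

theorem map_Num {A B : Type*} [CommRing A] [CommRing B] (f : A →+* B) (q Q : A) (u n : ℕ)
    (Y1 Y0 X X' : A) :
    f (Num q Q u n Y1 Y0 X X') = Num (f q) (f Q) u n (f Y1) (f Y0) (f X) (f X') := by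
  simp [Num, map_pk, map_ek]

section

variable {F : Type*} [Field F]

/-- `κ_k = ∏_{i<k} (-Q^i)`. -/
def kap (Q : F) (k : ℕ) : F := ∏ i ∈ range k, (-(Q ^ i))

/-- The symmetric weight. -/
def wk (Q : F) (n M k : ℕ) (Y : F) : F :=
  (∏ i ∈ Ico (M - k) M, (Y - Q ^ (i + 1))) * ∏ i ∈ Ico k (n - 1), (Y - Q ^ (i + 1))

theorem pk_eq_kap_mul_wk (Q : F) (n M k : ℕ) (hk : k ≤ M) (Y : F) :
    pk (Q ^ M) Q n k Y = kap Q k * wk Q n M k Y := by
  unfold pk kap wk
  rw [← mul_assoc]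
  congr 1
  have e1 : ∏ i ∈ range k, (Q ^ M - Q ^ i * Y) =
      (∏ i ∈ range k, (-(Q ^ i))) * ∏ i ∈ range k, (Y - Q ^ (M - 1 - i + 1)) := by
    rw [← prod_mul_distrib]
    apply prod_congr rfl
    intro i hi
    rw [mem_range] at hi
    have : Q ^ M = Q ^ i * Q ^ (M - 1 - i + 1) := by
      rw [← pow_add]
      congr 1
      omega
    rw [this]
    ring
  rw [e1]
  congr 1
  rcases Nat.eq_zero_or_pos k with rfl | hk0
  · simp
  · have h := prod_Ico_reflect (fun i => Y - Q ^ (i + 1)) 0 (m := k) (n := M - 1) (by omega)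
    rw [← range_eq_Ico] at h
    rw [h]
    congr 2 <;> omega

theorem wk_symm (Q : F) (n M k : ℕ) (hM : M < n) (hk : k ≤ M) (Y : F) :
    wk Q n M (M - k) Y = wk Q n M k Y := by
  unfold wk
  rw [Nat.sub_sub_self hk]
  rw [← prod_Ico_consecutive (fun i => Y - Q ^ (i + 1)) (by omega : M - k ≤ M)
    (by omega : M ≤ n - 1),
    ← prod_Ico_consecutive (fun i => Y - Q ^ (i + 1)) (by omega : k ≤ M)
    (by omega : M ≤ n - 1)]
  ring

/-- `ρ'_k`. -/
def rho (Q : F) (u k : ℕ) : F := kap Q k ^ (2 * u + 3) * Q ^ ((u + 1) * k)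

theorem rho_succ (Q : F) (u k : ℕ) :
    rho Q u (k + 1) = - (rho Q u k * Q ^ ((2 * u + 3) * k + (u + 1))) := by
  unfold rho kap
  rw [prod_range_succ, mul_pow]
  have h : (-(Q ^ k)) ^ (2 * u + 3) = - Q ^ ((2 * u + 3) * k) := by
    rw [Odd.neg_pow ⟨u + 1, by ring⟩, ← pow_mul, mul_comm k]
  rw [h, show (u + 1) * (k + 1) = (u + 1) * k + (u + 1) by ring, pow_add, pow_add]
  ring

theorem rho_symm (Q : F) (u M : ℕ)
    (H1 : ∀ t, t + 1 = M → Q ^ ((2 * u + 3) * t + 2 * (u + 1)) = 1)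
    (H2 : ∀ h, M = 2 * h + 1 → Q ^ ((2 * u + 3) * h + (u + 1)) = -1) :
    ∀ i k : ℕ, k + (k + i) = M → rho Q u k = rho Q u (k + i) := by
  intro i
  induction i using Nat.strong_induction_on with
  | _ i ih =>
    intro k hkM
    rcases i with _ | _ | i
    · rfl
    · rw [zero_add, rho_succ, H2 k (by omega)]
      ring
    · have e := ih i (by omega) (k + 1) (by omega)
      rw [show k + (i + 1 + 1) = (k + 1 + i) + 1 by ring, rho_succ Q u (k + 1 + i), ← e,
        rho_succ Q u k]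
      have h1 := H1 (k + (k + 1 + i)) (by omega)
      rw [show (2 * u + 3) * (k + (k + 1 + i)) + 2 * (u + 1) =
        ((2 * u + 3) * k + (u + 1)) + ((2 * u + 3) * (k + 1 + i) + (u + 1)) by ring,
        pow_add] at h1
      linear_combination (- rho Q u k) * h1

theorem rho_symm' (Q : F) (u M : ℕ)
    (H1 : ∀ t, t + 1 = M → Q ^ ((2 * u + 3) * t + 2 * (u + 1)) = 1)
    (H2 : ∀ h, M = 2 * h + 1 → Q ^ ((2 * u + 3) * h + (u + 1)) = -1)
    (k : ℕ) (hk : k ≤ M) : rho Q u (M - k) = rho Q u k := by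
  rcases le_total k (M - k) with h | h
  · have := rho_symm Q u M H1 H2 (M - k - k) k (by omega)
    rw [this]
    congr 1
    omega
  · have := rho_symm Q u M H1 H2 (k - (M - k)) (M - k) (by omega)
    rw [this]
    congr 1
    omega

theorem ek_kap (Q : F) (u k j : ℕ) :
    ek (Q ^ (k + j)) Q u k * kap Q k ^ (2 * u + 3) = (Q ^ j - Q ^ k) * rho Q u k := by
  unfold ek rho
  rw [show (u + 1) * k = u * k + k by ring, pow_add, pow_add, two_mul, pow_add]
  ring

/-- The antisymmetry at a root of unity. -/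
theorem antisymm_vanish [CharZero F] (Q : F) (u n M : ℕ) (hM : M < n)
    (H1 : ∀ t, t + 1 = M → Q ^ ((2 * u + 3) * t + 2 * (u + 1)) = 1)
    (H2 : ∀ h, M = 2 * h + 1 → Q ^ ((2 * u + 3) * h + (u + 1)) = -1)
    (Y1 Y0 X X' : F) : Num (Q ^ M) Q u n Y1 Y0 X X' = 0 := by
  unfold Num
  have hbig : ∀ k, M < k → pk (Q ^ M) Q n k 1 = 0 := by
    intro k hk1
    unfold pk
    have : ∏ i ∈ range k, (Q ^ M - Q ^ i * 1) = 0 := by
      apply prod_eq_zero (mem_range.mpr hk1)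
      rw [mul_one, sub_self]
    rw [this, zero_mul]
  have hsplit : ∑ k ∈ range n, ek (Q ^ M) Q u k * pk (Q ^ M) Q n k 1 * pk (Q ^ M) Q n k Y1 *
      pk (Q ^ M) Q n k Y0 * (pk (Q ^ M) Q n k X * pk (Q ^ M) Q n k X') ^ u =
      ∑ k ∈ range (M + 1), ek (Q ^ M) Q u k * pk (Q ^ M) Q n k 1 * pk (Q ^ M) Q n k Y1 *
      pk (Q ^ M) Q n k Y0 * (pk (Q ^ M) Q n k X * pk (Q ^ M) Q n k X') ^ u := by
    symm
    apply sum_subset
    · intro k hk
      rw [mem_range] at hk ⊢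
      omega
    · intro k hk1 hk2
      rw [mem_range] at hk1 hk2
      rw [hbig k (by omega)]
      ring
  rw [hsplit]
  set f : ℕ → F := fun k => ek (Q ^ M) Q u k * pk (Q ^ M) Q n k 1 * pk (Q ^ M) Q n k Y1 *
      pk (Q ^ M) Q n k Y0 * (pk (Q ^ M) Q n k X * pk (Q ^ M) Q n k X') ^ u with hf
  have hanti : ∀ k ∈ range (M + 1), f (M + 1 - 1 - k) = - f k := by
    intro k hk
    rw [mem_range] at hk
    have hkM : k ≤ M := by omega
    rw [Nat.add_sub_cancel]
    simp only [hf]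
    rw [pk_eq_kap_mul_wk Q n M k hkM, pk_eq_kap_mul_wk Q n M k hkM,
      pk_eq_kap_mul_wk Q n M k hkM, pk_eq_kap_mul_wk Q n M k hkM,
      pk_eq_kap_mul_wk Q n M k hkM, pk_eq_kap_mul_wk Q n M (M - k) (by omega),
      pk_eq_kap_mul_wk Q n M (M - k) (by omega), pk_eq_kap_mul_wk Q n M (M - k) (by omega),
      pk_eq_kap_mul_wk Q n M (M - k) (by omega), pk_eq_kap_mul_wk Q n M (M - k) (by omega)]
    simp only [wk_symm Q n M k hM hkM]
    have e1 := ek_kap Q u k (M - k)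
    have e2 := ek_kap Q u (M - k) k
    rw [rho_symm' Q u M H1 H2 k hkM] at e2
    rw [show k + (M - k) = M by omega] at e1
    rw [show M - k + k = M by omega] at e2
    set W := wk Q n M k 1 * wk Q n M k Y1 * wk Q n M k Y0 * (wk Q n M k X * wk Q n M k X') ^ u
      with hW
    have g1 : ek (Q ^ M) Q u (M - k) * (kap Q (M - k) * wk Q n M k 1) *
        (kap Q (M - k) * wk Q n M k Y1) * (kap Q (M - k) * wk Q n M k Y0) *
        (kap Q (M - k) * wk Q n M k X * (kap Q (M - k) * wk Q n M k X')) ^ u =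
        (ek (Q ^ M) Q u (M - k) * kap Q (M - k) ^ (2 * u + 3)) * W := by
      rw [hW, pow_add, pow_mul]
      ring
    have g2 : ek (Q ^ M) Q u k * (kap Q k * wk Q n M k 1) *
        (kap Q k * wk Q n M k Y1) * (kap Q k * wk Q n M k Y0) *
        (kap Q k * wk Q n M k X * (kap Q k * wk Q n M k X')) ^ u =
        (ek (Q ^ M) Q u k * kap Q k ^ (2 * u + 3)) * W := by
      rw [hW, pow_add, pow_mul]
      ring
    rw [g1, g2, e1, e2]
    ring
  have hsum := sum_range_reflect f (M + 1)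
  rw [sum_congr rfl hanti, sum_neg_distrib] at hsum
  have h2 : (2 : F) * ∑ k ∈ range (M + 1), f k = 0 := by linear_combination -hsum
  rcases mul_eq_zero.mp h2 with h | h
  · exact absurd h two_ne_zero
  · exact h

end

end NH97.QC
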