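import Mathlib
import Pool.Agent.NH97.QC.Basic

open Finset

namespace NH97.QC

section field

variable {K : Type*} [Field K]

/-- The weight attached to the pair `(1, Y1)`. -/
def Vk (q Q : K) (n : ℕ) (Y1 : K) (k : ℕ) : K :=
  (q - Q ^ (2 * k)) * pk q Q n k 1 * pk q Q n k Y1 / q ^ k

theorem Vk_succ (q Q : K) (hq : q ≠ 0) (hQ : Q ≠ 0) (n M k : ℕ) (hM : M < n) (hk : k < M)
    (Y1 : K) (h1 : Q ^ M * Y1 = q) :
    Vk q Q n Y1 (k + 1) * ((1 - Q ^ (k + 1)) * (q - Q ^ (M + k + 1)) * (q - Q ^ (2 * k))) =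
    Vk q Q n Y1 k * ((q - Q ^ (2 * (k + 1))) * (q - Q ^ k) * (Q ^ M - Q ^ k)) := by
  unfold Vk
  have a1 := pk_succ q Q n k 1 (by omega)
  have a2 := pk_succ q Q n k Y1 (by omega)
  have hQM : Q ^ M ≠ 0 := pow_ne_zero _ hQ
  have a3 : pk q Q n (k + 1) Y1 * (q - Q ^ (M + k + 1)) =
      pk q Q n k Y1 * (q * (Q ^ M - Q ^ k)) := by
    have e1 : q - Q ^ (M + k + 1) = Q ^ M * (Y1 - Q ^ (k + 1)) := by
      linear_combination -h1
    have e2 : q * (Q ^ M - Q ^ k) = Q ^ M * (q - Q ^ k * Y1) := by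
      linear_combination Q ^ k * h1
    rw [e1, e2]
    linear_combination Q ^ M * a2
  have hqk : q ^ k ≠ 0 := pow_ne_zero _ hq
  rw [pow_succ]
  rw [mul_one] at a1
  field_simp
  linear_combination (pk q Q n (k + 1) Y1 * (q - Q ^ (M + k + 1)) *
      ((q - Q ^ (2 * k)) * (q - Q ^ (2 * (k + 1))))) * a1 +
      (pk q Q n k 1 * (q - Q ^ k) * ((q - Q ^ (2 * k)) * (q - Q ^ (2 * (k + 1))))) * a3

theorem Vk_mul_Dk (q Q : K) (hq : q ≠ 0) (hQ : Q ≠ 0) (n M : ℕ) (hM : M < n)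
    (hQ1 : ∀ j, 0 < j → Q ^ j ≠ 1) (hqQ : ∀ j, q ≠ Q ^ j)
    (Y1 : K) (h1 : Q ^ M * Y1 = q) (k : ℕ) (hk : k ≤ M) :
    Vk q Q n Y1 k * Dk q Q M k = Vk q Q n Y1 0 * Dk q Q M 0 := by
  induction k with
  | zero => rfl
  | succ k ih =>
    rw [← ih (by omega)]
    have hv := Vk_succ q Q hq hQ n M k hM (by omega) Y1 h1
    have hd := Dk_succ q Q hq hQ M k (by omega)
    have n1 : (1 - Q ^ (k + 1)) ≠ 0 := sub_ne_zero.mpr (hQ1 (k + 1) (by omega)).symm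
    have n2 : (q - Q ^ (M + k + 1)) ≠ 0 := sub_ne_zero.mpr (hqQ _)
    have n3 : (q - Q ^ (2 * k)) ≠ 0 := sub_ne_zero.mpr (hqQ _)
    have n4 : (q - Q ^ (2 * (k + 1))) ≠ 0 := sub_ne_zero.mpr (hqQ _)
    have n5 : (q - Q ^ k) ≠ 0 := sub_ne_zero.mpr (hqQ _)
    have n6 : (Q ^ M - Q ^ k) ≠ 0 := by
      obtain ⟨r, hr⟩ : ∃ r, M = k + (r + 1) := ⟨M - k - 1, by omega⟩
      rw [hr, pow_add, show Q ^ k * Q ^ (r + 1) - Q ^ k = Q ^ k * (Q ^ (r + 1) - 1) by ring]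
      exact mul_ne_zero (pow_ne_zero _ hQ) (sub_ne_zero.mpr (hQ1 (r + 1) (by omega)))
    have hne : ((1 - Q ^ (k + 1)) * (q - Q ^ (M + k + 1)) * (q - Q ^ (2 * k))) *
        ((q - Q ^ (2 * (k + 1))) * (q - Q ^ k) * (Q ^ M - Q ^ k)) ≠ 0 := by
      refine mul_ne_zero (mul_ne_zero (mul_ne_zero n1 n2) n3) (mul_ne_zero (mul_ne_zero n4 n5) n6)
    apply mul_right_cancel₀ hne
    linear_combination (Dk q Q M (k + 1) *
      ((q - Q ^ (2 * (k + 1))) * (q - Q ^ k) * (Q ^ M - Q ^ k))) * hv +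
      (Vk q Q n Y1 k * ((q - Q ^ (2 * (k + 1))) * (q - Q ^ k) * (Q ^ M - Q ^ k))) * hd

/-- The roots of the polynomial attached to a pair. -/
def xi (q Q Y : K) (i : ℕ) : K := Y * (Q ^ (i + 1))⁻¹ * q⁻¹ + Q ^ (i + 1) * Y⁻¹

/-- The value at the `k`-th node of the polynomial attached to a pair. -/
def hk (q Q Y : K) (p k : ℕ) : K := ∏ i ∈ range p, (xk q Q k - xi q Q Y i)

theorem xk_sub_xi (q Q Y : K) (hq : q ≠ 0) (hQ : Q ≠ 0) (hY : Y ≠ 0) (k i : ℕ) :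
    xk q Q k - xi q Q Y i =
      (Y - Q ^ (k + i + 1)) * (q * Q ^ (i + 1) - Q ^ k * Y) * (Y * q * Q ^ (k + i + 1))⁻¹ := by
  unfold xk xi
  have h1 : Q ^ k ≠ 0 := pow_ne_zero _ hQ
  have h2 : Q ^ i ≠ 0 := pow_ne_zero _ hQ
  simp only [pow_add, pow_one]
  field_simp
  ring

theorem hk_succ (q Q Y : K) (hq : q ≠ 0) (hQ : Q ≠ 0) (hY : Y ≠ 0) (p k : ℕ) :
    hk q Q Y p (k + 1) * ((Y - Q ^ (k + 1)) * (q * Q ^ p - Q ^ k * Y)) =
    hk q Q Y p k * ((Y - Q ^ (k + p + 1)) * (q - Q ^ k * Y)) := by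
  have e : ∀ k, hk q Q Y p k = (∏ i ∈ range p, (Y - Q ^ (k + i + 1))) *
      (∏ i ∈ range p, (q * Q ^ (i + 1) - Q ^ k * Y)) *
      ∏ i ∈ range p, (Y * q * Q ^ (k + i + 1))⁻¹ := by
    intro k
    unfold hk
    rw [← prod_mul_distrib, ← prod_mul_distrib]
    apply prod_congr rfl
    intro i _
    rw [xk_sub_xi q Q Y hq hQ hY]
  have eA : (∏ i ∈ range p, (Y - Q ^ (k + 1 + i + 1))) * (Y - Q ^ (k + 1)) =
      (∏ i ∈ range p, (Y - Q ^ (k + i + 1))) * (Y - Q ^ (k + p + 1)) := by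
    rw [← prod_range_succ (fun i => (Y - Q ^ (k + i + 1))) p,
      prod_range_succ' (fun i => (Y - Q ^ (k + i + 1))) p]
    simp only [add_zero]
    congr 1
    apply prod_congr rfl
    intro i _
    rw [show k + 1 + i + 1 = k + (i + 1) + 1 by ring]
  have eB : (∏ i ∈ range p, (q * Q ^ (i + 1) - Q ^ (k + 1) * Y)) * (q * Q ^ p - Q ^ k * Y) =
      Q ^ p * ((∏ i ∈ range p, (q * Q ^ (i + 1) - Q ^ k * Y)) * (q - Q ^ k * Y)) := by
    have e1 : (∏ i ∈ range p, (q * Q ^ (i + 1) - Q ^ (k + 1) * Y)) =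
        Q ^ p * ∏ i ∈ range p, (q * Q ^ i - Q ^ k * Y) := by
      rw [show Q ^ p = ∏ i ∈ range p, Q by simp, ← prod_mul_distrib]
      apply prod_congr rfl
      intro i _
      ring
    have e2 : (∏ i ∈ range p, (q * Q ^ i - Q ^ k * Y)) * (q * Q ^ p - Q ^ k * Y) =
        (∏ i ∈ range p, (q * Q ^ (i + 1) - Q ^ k * Y)) * (q - Q ^ k * Y) := by
      rw [← prod_range_succ (fun i => (q * Q ^ i - Q ^ k * Y)) p,
        prod_range_succ' (fun i => (q * Q ^ i - Q ^ k * Y)) p]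
      simp
    rw [e1, ← e2]
    ring
  have eC : Q ^ p * (∏ i ∈ range p, (Y * q * Q ^ (k + 1 + i + 1))⁻¹) =
      ∏ i ∈ range p, (Y * q * Q ^ (k + i + 1))⁻¹ := by
    rw [show Q ^ p = ∏ i ∈ range p, Q by simp, ← prod_mul_distrib]
    apply prod_congr rfl
    intro i _
    rw [show k + 1 + i + 1 = (k + i + 1) + 1 by ring, pow_succ Q (k + i + 1)]
    have h1 : Q ^ (k + i + 1) ≠ 0 := pow_ne_zero _ hQ
    field_simp
  rw [e (k + 1), e k, ← eC]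
  set A1 := ∏ i ∈ range p, (Y - Q ^ (k + 1 + i + 1))
  set A0 := ∏ i ∈ range p, (Y - Q ^ (k + i + 1))
  set B1 := ∏ i ∈ range p, (q * Q ^ (i + 1) - Q ^ (k + 1) * Y)
  set B0 := ∏ i ∈ range p, (q * Q ^ (i + 1) - Q ^ k * Y)
  set C1 := ∏ i ∈ range p, (Y * q * Q ^ (k + 1 + i + 1))⁻¹
  linear_combination (B1 * C1 * (q * Q ^ p - Q ^ k * Y)) * eA +
    (A0 * (Y - Q ^ (k + p + 1)) * C1) * eB

/-- The pair lemma. -/
theorem pair_lemma (q Q Y Y' : K) (hq : q ≠ 0) (hQ : Q ≠ 0) (n p : ℕ)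
    (hYY : Y * Y' = q * Q ^ (p + 1))
    (hY : ∀ j, 0 < j → j < n → Y ≠ Q ^ j) (hY' : ∀ j, 0 < j → j < n → Y' ≠ Q ^ j)
    (k : ℕ) (hk' : k < n) :
    pk q Q n k Y * pk q Q n k Y' * Q ^ k * hk q Q Y p 0 =
      q ^ k * hk q Q Y p k * (pk q Q n 0 Y * pk q Q n 0 Y') := by
  have hY0 : Y ≠ 0 := by
    rintro rfl
    rw [zero_mul] at hYY
    exact (mul_ne_zero hq (pow_ne_zero _ hQ)) hYY.symm
  induction k with
  | zero => simp; ring
  | succ k ih =>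
    have ih' := ih (by omega)
    have s1 := pk_succ q Q n k Y (by omega)
    have s2 := pk_succ q Q n k Y' (by omega)
    have hs := hk_succ q Q Y hq hQ hY0 p k
    have n1 : Y - Q ^ (k + 1) ≠ 0 := sub_ne_zero.mpr (hY _ (by omega) hk')
    have n2' : Y' - Q ^ (k + 1) ≠ 0 := sub_ne_zero.mpr (hY' _ (by omega) hk')
    have c1 : (Y' - Q ^ (k + 1)) * Y = Q * (q * Q ^ p - Q ^ k * Y) := by
      linear_combination hYY
    have c2 : (q - Q ^ k * Y') * Y = q * (Y - Q ^ (k + p + 1)) := by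
      linear_combination (- Q ^ k) * hYY
    have n2 : q * Q ^ p - Q ^ k * Y ≠ 0 := by
      intro h
      rw [h, mul_zero] at c1
      exact (mul_ne_zero n2' hY0) c1
    apply mul_right_cancel₀ (mul_ne_zero (mul_ne_zero n1 n2) hQ)
    have t1 : pk q Q n (k + 1) Y * pk q Q n (k + 1) Y' *
        ((Y - Q ^ (k + 1)) * (Q * (q * Q ^ p - Q ^ k * Y))) =
        pk q Q n k Y * pk q Q n k Y' * ((q - Q ^ k * Y) * (q * (Y - Q ^ (k + p + 1)))) := by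
      rw [← c1, ← c2]
      linear_combination (pk q Q n (k + 1) Y' * (Y' - Q ^ (k + 1)) * Y) * s1 +
        (pk q Q n k Y * (q - Q ^ k * Y) * Y) * s2
    rw [pow_succ Q k, pow_succ q k]
    linear_combination (Q ^ k * Q * hk q Q Y p 0) * t1 +
      (q * Q * (q - Q ^ k * Y) * (Y - Q ^ (k + p + 1))) * ih' -
      (q ^ k * q * Q * (pk q Q n 0 Y * pk q Q n 0 Y')) * hs

theorem hk_zero_ne (q Q Y Y' : K) (hq : q ≠ 0) (hQ : Q ≠ 0) (n p : ℕ) (hp : p < n)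
    (hYY : Y * Y' = q * Q ^ (p + 1))
    (hY : ∀ j, 0 < j → j < n → Y ≠ Q ^ j) (hY' : ∀ j, 0 < j → j < n → Y' ≠ Q ^ j) :
    hk q Q Y p 0 ≠ 0 := by
  have hY0 : Y ≠ 0 := by
    rintro rfl
    rw [zero_mul] at hYY
    exact (mul_ne_zero hq (pow_ne_zero _ hQ)) hYY.symm
  unfold hk
  rw [prod_ne_zero_iff]
  intro i hi
  rw [mem_range] at hi
  rw [xk_sub_xi q Q Y hq hQ hY0]
  refine mul_ne_zero (mul_ne_zero ?_ ?_) ?_
  · exact sub_ne_zero.mpr (hY _ (by omega) (by omega))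
  · intro h
    apply hY' (p - i) (by omega) (by omega)
    apply mul_left_cancel₀ hY0
    rw [hYY]
    have : Y = q * Q ^ (i + 1) := by linear_combination -h
    rw [this, mul_assoc, ← pow_add]
    congr 2
    omega
  · refine inv_ne_zero (mul_ne_zero (mul_ne_zero hY0 hq) (pow_ne_zero _ hQ))

end field

end NH97.QC
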