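import Mathlib
import Pool.Agent.NH97.QC.Vanish

open Finset Polynomial

namespace NH97.QC

section field

variable {K : Type*} [Field K]

theorem pk_qs (q s : K) (hq : q ≠ 0) (n : ℕ)
    (hs1 : ∀ k, s * (q * s ^ 2) ^ k ≠ 1) (k : ℕ) (hk : k < n) :
    pk q (q * s ^ 2) n k (q * s) * s ^ k = pk q (q * s ^ 2) n 0 (q * s) := by
  induction k with
  | zero => simp
  | succ k ih =>
    rw [← ih (by omega)]
    have h := pk_succ q (q * s ^ 2) n k (q * s) (by omega)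
    have hne : q * (1 - s * (q * s ^ 2) ^ k) ≠ 0 :=
      mul_ne_zero hq (sub_ne_zero.mpr (hs1 k).symm)
    apply mul_right_cancel₀ hne
    rw [pow_succ s k]
    linear_combination s ^ k * h

/-- The polynomial attached to a pair. -/
noncomputable def Gp (q Q Y : K) (p : ℕ) : K[X] := ∏ i ∈ range p, (X - C (xi q Q Y i))

theorem Gp_eval (q Q Y : K) (p k : ℕ) : (Gp q Q Y p).eval (xk q Q k) = hk q Q Y p k := by
  unfold Gp hk
  rw [eval_prod]
  simp

theorem Gp_natDegree (q Q Y : K) (p : ℕ) : (Gp q Q Y p).natDegree ≤ p := by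
  unfold Gp
  refine (natDegree_prod_le _ _).trans ?_
  refine (sum_le_sum (fun i _ => natDegree_X_sub_C_le _)).trans ?_
  simp

theorem xk_injOn (q Q : K) (hq : q ≠ 0) (hQ : Q ≠ 0)
    (hQ1 : ∀ j, 0 < j → Q ^ j ≠ 1) (hqQ : ∀ j, q ≠ Q ^ j) (s : Finset ℕ) :
    Set.InjOn (xk q Q) s := by
  have key : ∀ k j, k < j → xk q Q k ≠ xk q Q j := by
    intro k j hkj h
    have h' := xk_sub q Q hQ k j
    rw [h, sub_self] at h'
    rcases mul_eq_zero.mp h'.symm with h1 | h1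
    · have h2 : Q ^ k = Q ^ j := inv_injective (sub_eq_zero.mp h1)
      obtain ⟨r, rfl⟩ : ∃ r, j = k + (r + 1) := ⟨j - k - 1, by omega⟩
      rw [pow_add] at h2
      have h3 : Q ^ k ≠ 0 := pow_ne_zero _ hQ
      apply hQ1 (r + 1) (by omega)
      apply mul_left_cancel₀ h3
      rw [← h2, mul_one]
    · apply hqQ (k + j)
      have h2 : q - Q ^ (k + j) = q * (1 - q⁻¹ * Q ^ (k + j)) := by field_simp
      rw [h1, mul_zero] at h2
      exact sub_eq_zero.mp h2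
  intro k _ j _ h
  rcases lt_trichotomy k j with h1 | h1 | h1
  · exact absurd h (key k j h1)
  · exact h1
  · exact absurd h.symm (key j k h1)

theorem lagrange_zero (q Q : K) (hq : q ≠ 0) (hQ : Q ≠ 0)
    (hQ1 : ∀ j, 0 < j → Q ^ j ≠ 1) (hqQ : ∀ j, q ≠ Q ^ j) (M : ℕ) (G : K[X])
    (hG : G.natDegree < M) :
    ∑ k ∈ range (M + 1), G.eval (xk q Q k) / Dk q Q M k = 0 := by
  have h := Lagrange.coeff_eq_sum (s := range (M + 1)) (v := xk q Q)
    (xk_injOn q Q hq hQ hQ1 hqQ _) (P := G) (by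
      rw [card_range]
      refine lt_of_le_of_lt degree_le_natDegree ?_
      exact_mod_cast (by omega : G.natDegree < M + 1))
  rw [card_range, Nat.add_sub_cancel, coeff_eq_zero_of_natDegree_lt hG] at h
  unfold Dk
  exact h.symm

/-- Exact vanishing on the variety of paired parameters. -/
theorem exact_vanish (q s Q : K) (hq : q ≠ 0) (u : ℕ) (hs : s = q ^ (u + 1)) (hQs : Q = q * s ^ 2)
    (hQ1 : ∀ j, 0 < j → Q ^ j ≠ 1) (hqQ : ∀ j, q ≠ Q ^ j)
    (hsQ : ∀ k, s * Q ^ k ≠ 1) (hqs : ∀ j, 0 < j → q * s ≠ Q ^ j)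
    (n M p p0 : ℕ) (hM : M < n) (hp : p < n) (hp0 : p0 < n) (hdeg : p0 + u * p < M)
    (Y1 Y0 : K) (Y Y' : ℕ → K) (h1 : Q ^ M * Y1 = q) (h0 : Y0 = q * s * Q ^ p0)
    (hY0 : ∀ j, 0 < j → j < n → Y0 ≠ Q ^ j)
    (hYY : ∀ i < u, Y i * Y' i = q * Q ^ (p + 1))
    (hY : ∀ i < u, ∀ j, 0 < j → j < n → Y i ≠ Q ^ j)
    (hY' : ∀ i < u, ∀ j, 0 < j → j < n → Y' i ≠ Q ^ j) :
    ∑ k ∈ range n, ek q Q u k * pk q Q n k 1 * pk q Q n k Y1 * pk q Q n k Y0 *
      ∏ i ∈ range u, (pk q Q n k (Y i) * pk q Q n k (Y' i)) = 0 := by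
  have hs0 : s ≠ 0 := by rw [hs]; exact pow_ne_zero _ hq
  have hQ : Q ≠ 0 := by rw [hQs]; exact mul_ne_zero hq (pow_ne_zero _ hs0)
  -- the terms above `M` vanish
  have hbig : ∀ k, M < k → k < n → pk q Q n k Y1 = 0 := by
    intro k hk1 hk2
    unfold pk
    have : ∏ i ∈ range k, (q - Q ^ i * Y1) = 0 := by
      apply prod_eq_zero (mem_range.mpr hk1)
      rw [h1, sub_self]
    rw [this, zero_mul]
  have hsplit : ∑ k ∈ range n, ek q Q u k * pk q Q n k 1 * pk q Q n k Y1 * pk q Q n k Y0 *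
      ∏ i ∈ range u, (pk q Q n k (Y i) * pk q Q n k (Y' i)) =
      ∑ k ∈ range (M + 1), ek q Q u k * pk q Q n k 1 * pk q Q n k Y1 * pk q Q n k Y0 *
      ∏ i ∈ range u, (pk q Q n k (Y i) * pk q Q n k (Y' i)) := by
    symm
    apply sum_subset
    · intro k hk
      rw [mem_range] at hk ⊢
      omega
    · intro k hk1 hk2
      rw [mem_range] at hk1 hk2
      rw [hbig k (by omega) hk1]
      ring
  rw [hsplit]
  -- the special parameter
  have hYqs : Y0 * (q * s) = q * Q ^ (p0 + 1) := by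
    rw [h0, pow_succ]
    nth_rewrite 3 [hQs]
    ring
  have hqs' : ∀ j, 0 < j → j < n → q * s ≠ Q ^ j := fun j hj _ => hqs j hj
  have hpk0qs : pk q Q n 0 (q * s) ≠ 0 := by
    unfold pk
    rw [range_zero, prod_empty, one_mul, prod_ne_zero_iff]
    intro i hi
    exact sub_ne_zero.mpr (hqs (i + 1) (by omega))
  have hh0 : hk q Q Y0 p0 0 ≠ 0 := hk_zero_ne q Q Y0 (q * s) hq hQ n p0 hp0 hYqs hY0 hqs'
  have hsingle : ∀ k, k < n → pk q Q n k Y0 = pk q Q n 0 Y0 / hk q Q Y0 p0 0 *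
      (hk q Q Y0 p0 k / s ^ k) := by
    intro k hk'
    have e1 := pair_lemma q Q Y0 (q * s) hq hQ n p0 hYqs hY0 hqs' k hk'
    have e2 : pk q Q n k (q * s) * s ^ k = pk q Q n 0 (q * s) := by
      subst hQs
      exact pk_qs q s hq n hsQ k hk'
    have hsk : s ^ k ≠ 0 := pow_ne_zero _ hs0
    have hqk : q ^ k ≠ 0 := pow_ne_zero _ hq
    have e3 : Q ^ k = q ^ k * s ^ k * s ^ k := by
      rw [hQs]; ring
    rw [div_mul_div_comm, eq_div_iff (mul_ne_zero hh0 hsk)]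
    apply mul_right_cancel₀ (mul_ne_zero hpk0qs hqk)
    rw [e3] at e1
    linear_combination e1 - (pk q Q n k Y0 * q ^ k * s ^ k * hk q Q Y0 p0 0) * e2
  have hhi : ∀ i < u, hk q Q (Y i) p 0 ≠ 0 := fun i hi =>
    hk_zero_ne q Q (Y i) (Y' i) hq hQ n p hp (hYY i hi) (hY i hi) (hY' i hi)
  have hpair : ∀ i < u, ∀ k, k < n → pk q Q n k (Y i) * pk q Q n k (Y' i) =
      (pk q Q n 0 (Y i) * pk q Q n 0 (Y' i) / hk q Q (Y i) p 0) * (q ^ k / Q ^ k) *
        hk q Q (Y i) p k := by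
    intro i hi k hk'
    have e1 := pair_lemma q Q (Y i) (Y' i) hq hQ n p (hYY i hi) (hY i hi) (hY' i hi) k hk'
    have hQk : Q ^ k ≠ 0 := pow_ne_zero _ hQ
    have hh := hhi i hi
    field_simp
    linear_combination e1
  set G : K[X] := Gp q Q Y0 p0 * ∏ i ∈ range u, Gp q Q (Y i) p with hG
  have hGdeg : G.natDegree < M := by
    refine lt_of_le_of_lt ?_ hdeg
    rw [hG]
    refine natDegree_mul_le.trans ?_
    refine add_le_add (Gp_natDegree q Q Y0 p0) ?_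
    refine (natDegree_prod_le _ _).trans ?_
    refine (sum_le_sum (fun i _ => Gp_natDegree q Q (Y i) p)).trans ?_
    simp
  have hGeval : ∀ k, G.eval (xk q Q k) = hk q Q Y0 p0 k * ∏ i ∈ range u, hk q Q (Y i) p k := by
    intro k
    rw [hG, eval_mul, eval_prod, Gp_eval]
    simp only [Gp_eval]
  set CC : K := pk q Q n 0 Y0 / hk q Q Y0 p0 0 *
    ∏ i ∈ range u, (pk q Q n 0 (Y i) * pk q Q n 0 (Y' i) / hk q Q (Y i) p 0) with hCC
  have hterm : ∀ k ∈ range (M + 1), ek q Q u k * pk q Q n k 1 * pk q Q n k Y1 * pk q Q n k Y0 *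
      ∏ i ∈ range u, (pk q Q n k (Y i) * pk q Q n k (Y' i)) =
      (CC * (Vk q Q n Y1 0 * Dk q Q M 0)) * (G.eval (xk q Q k) / Dk q Q M k) := by
    intro k hk'
    rw [mem_range] at hk'
    have hkn : k < n := by omega
    have hprod : ∏ i ∈ range u, (pk q Q n k (Y i) * pk q Q n k (Y' i)) =
        (∏ i ∈ range u, (pk q Q n 0 (Y i) * pk q Q n 0 (Y' i) / hk q Q (Y i) p 0)) *
        (q ^ k / Q ^ k) ^ u * ∏ i ∈ range u, hk q Q (Y i) p k := by
      rw [show (q ^ k / Q ^ k) ^ u = ∏ i ∈ range u, (q ^ k / Q ^ k) by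
          rw [prod_const, card_range],
        ← prod_mul_distrib, ← prod_mul_distrib]
      apply prod_congr rfl
      intro i hi
      exact hpair i (mem_range.mp hi) k hkn
    rw [hprod, hsingle k hkn, hGeval k, hCC]
    have hVD := Vk_mul_Dk q Q hq hQ n M hM hQ1 hqQ Y1 h1 k (by omega)
    have hDne : Dk q Q M k ≠ 0 := by
      unfold Dk
      rw [prod_ne_zero_iff]
      intro j hj
      rw [mem_erase, mem_range] at hj
      intro h
      apply hj.1
      exact (xk_injOn q Q hq hQ hQ1 hqQ (range (M + 1)) (mem_coe.mpr (mem_range.mpr (by omega)))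
        (mem_coe.mpr (mem_range.mpr (by omega))) (sub_eq_zero.mp h)).symm
    rw [← hVD]
    have hqk : q ^ k ≠ 0 := pow_ne_zero _ hq
    have hQk : Q ^ k ≠ 0 := pow_ne_zero _ hQ
    have hsk : s ^ k ≠ 0 := pow_ne_zero _ hs0
    have hV : ek q Q u k * pk q Q n k 1 * pk q Q n k Y1 =
        Vk q Q n Y1 k * q ^ k * (Q ^ k) ^ u := by
      unfold Vk ek
      rw [← pow_mul, mul_comm k u]
      field_simp
    rw [hV]
    have hexp : q ^ k * (Q ^ k) ^ u * (q ^ k / Q ^ k) ^ u / s ^ k = 1 := by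
      rw [div_pow, mul_assoc, mul_div_cancel₀ _ (pow_ne_zero _ hQk), hs]
      rw [← pow_mul, ← pow_mul, ← pow_add, div_eq_one_iff_eq (pow_ne_zero _ hq)]
      congr 1
      ring
    set a := pk q Q n 0 Y0 / hk q Q Y0 p0 0
    set b := ∏ i ∈ range u, (pk q Q n 0 (Y i) * pk q Q n 0 (Y' i) / hk q Q (Y i) p 0)
    set c := ∏ i ∈ range u, hk q Q (Y i) p k
    rw [show Vk q Q n Y1 k * q ^ k * (Q ^ k) ^ u * (a * (hk q Q Y0 p0 k / s ^ k)) *
      (b * (q ^ k / Q ^ k) ^ u * c) = Vk q Q n Y1 k * a * b * hk q Q Y0 p0 k * c *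
        (q ^ k * (Q ^ k) ^ u * (q ^ k / Q ^ k) ^ u / s ^ k) by ring, hexp]
    field_simp
  rw [sum_congr rfl hterm, ← mul_sum, lagrange_zero q Q hq hQ hQ1 hqQ M G hGdeg, mul_zero]

end field

end NH97.QC
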