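import Mathlib
import Pool.Agent.NH97.QC.FThree
import Pool.Agent.NH97.QC.FOne

open Finset Polynomial

namespace NH97.QC

/-- Exact vanishing in a domain. -/
theorem exact_vanish_dom {R : Type*} [CommRing R] [IsDomain R] (q : R) (hq : q ≠ 0)
    (hq1 : ∀ j, 0 < j → q ^ j ≠ 1) (u n M p p0 : ℕ) (hM : M < n) (hp : p < n) (hp0 : p0 < n)
    (hdeg : p0 + u * p < M)
    (Y1 Y0 : R) (Y Y' : ℕ → R) (h1 : (q ^ (2 * u + 3)) ^ M * Y1 = q)
    (h0 : Y0 = q * q ^ (u + 1) * (q ^ (2 * u + 3)) ^ p0)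
    (hY0 : ∀ j, 0 < j → j < n → Y0 ≠ (q ^ (2 * u + 3)) ^ j)
    (hYY : ∀ i < u, Y i * Y' i = q * (q ^ (2 * u + 3)) ^ (p + 1))
    (hY : ∀ i < u, ∀ j, 0 < j → j < n → Y i ≠ (q ^ (2 * u + 3)) ^ j)
    (hY' : ∀ i < u, ∀ j, 0 < j → j < n → Y' i ≠ (q ^ (2 * u + 3)) ^ j) :
    ∑ k ∈ range n, ek q (q ^ (2 * u + 3)) u k * pk q (q ^ (2 * u + 3)) n k 1 *
      pk q (q ^ (2 * u + 3)) n k Y1 * pk q (q ^ (2 * u + 3)) n k Y0 *
      ∏ i ∈ range u, (pk q (q ^ (2 * u + 3)) n k (Y i) * pk q (q ^ (2 * u + 3)) n k (Y' i))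
      = 0 := by
  set φ := algebraMap R (FractionRing R) with hφ
  have hinj : Function.Injective φ := IsFractionRing.injective R (FractionRing R)
  have hφq : φ q ≠ 0 := fun h => hq (hinj (by rw [h, map_zero]))
  have hpow : ∀ a b : ℕ, a < b → φ q ^ a ≠ φ q ^ b := by
    intro a b hab h
    rw [← map_pow, ← map_pow] at h
    have h' := hinj h
    obtain ⟨r, rfl⟩ : ∃ r, b = a + (r + 1) := ⟨b - a - 1, by omega⟩
    rw [pow_add] at h'
    apply hq1 (r + 1) (by omega)
    apply mul_left_cancel₀ (pow_ne_zero a hq)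
    rw [← h', mul_one]
  apply hinj
  rw [map_zero, map_sum]
  simp only [map_mul, map_prod, map_pk, map_ek, map_pow, map_one]
  refine exact_vanish (φ q) (φ q ^ (u + 1)) (φ q ^ (2 * u + 3)) hφq u rfl (by ring) ?_ ?_ ?_ ?_
    n M p p0 hM hp hp0 hdeg (φ Y1) (φ Y0) (fun i => φ (Y i)) (fun i => φ (Y' i)) ?_ ?_ ?_ ?_ ?_ ?_
  · intro j hj h
    rw [← pow_mul] at h
    refine hpow 0 ((2 * u + 3) * j) (by positivity) ?_
    rw [h, pow_zero]
  · intro j h
    rw [← pow_mul] at h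
    rcases Nat.eq_zero_or_pos j with rfl | hj
    · exact hpow 0 1 (by omega) (by rw [pow_zero, pow_one, h, mul_zero, pow_zero])
    · exact hpow 1 ((2 * u + 3) * j) (by nlinarith) (by rw [pow_one, ← h])
  · intro k h
    rw [← pow_mul, ← pow_add] at h
    exact hpow 0 (u + 1 + (2 * u + 3) * k) (by positivity) (by rw [h, pow_zero])
  · intro j hj h
    rw [← pow_mul, ← pow_succ'] at h
    exact hpow (u + 1 + 1) _ (by nlinarith) h
  · rw [← map_pow, ← map_pow, ← map_mul, h1]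
  · rw [h0]; simp
  · intro j hj1 hj2 h
    apply hY0 j hj1 hj2
    apply hinj
    rw [h]; simp
  · intro i hi
    have := congrArg φ (hYY i hi)
    simpa using this
  · intro i hi j hj1 hj2 h
    apply hY i hi j hj1 hj2
    apply hinj
    rw [h]; simp
  · intro i hi j hj1 hj2 h
    apply hY' i hi j hj1 hj2
    apply hinj
    rw [h]; simp

/-- A polynomial whose values at infinitely many residually distinct points are divisible by
`π ^ r` is divisible by `π ^ r`. -/
theorem dvd_of_eval_dvd {R F : Type*} [CommRing R] [IsDomain R] [Field F] (res : R →+* F)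
    (π : R) (hπ : π ≠ 0) (hres : res π = 0) (hker : ∀ x, res x = 0 → π ∣ x)
    (t : ℕ → R) (ht : Function.Injective (fun j => res (t j))) (r : ℕ) (f : R[X])
    (h : ∀ j, π ^ r ∣ f.eval (t j)) : C (π ^ r) ∣ f := by
  induction r with
  | zero => simp
  | succ r ih =>
    obtain ⟨g, rfl⟩ := ih (fun j => (pow_dvd_pow π (Nat.le_succ r)).trans (h j))
    have hg : ∀ j, π ∣ g.eval (t j) := by
      intro j
      have := h j
      rw [eval_mul, eval_C, pow_succ] at this
      exact (mul_dvd_mul_iff_left (pow_ne_zero r hπ)).mp this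
    have hmap : g.map res = 0 := by
      refine Polynomial.eq_zero_of_infinite_isRoot _ ?_
      refine (Set.infinite_range_of_injective ht).mono ?_
      rintro _ ⟨j, rfl⟩
      show (g.map res).IsRoot (res (t j))
      rw [IsRoot.def, eval_map, eval₂_hom]
      obtain ⟨c, hc⟩ := hg j
      rw [hc, map_mul, hres, zero_mul]
    rw [pow_succ, C_mul]
    apply mul_dvd_mul_left
    rw [C_dvd_iff_dvd_coeff]
    intro i
    apply hker
    rw [← coeff_map, hmap, coeff_zero]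

/-- First order expansion of a product at arguments divisible by `π ^ 2`. -/
theorem prod_expand {R : Type*} [CommRing R] (π : R) (f : R[X]) (t : ℕ → R)
    (ht : ∀ i, π ^ 2 ∣ t i) (m : ℕ) :
    π ^ 4 ∣ ∏ i ∈ range (m + 1), f.eval (t i) -
      (f.eval 0 ^ (m + 1) + f.eval 0 ^ m * f.derivative.eval 0 * ∑ i ∈ range (m + 1), t i) := by
  have hone : ∀ i, π ^ 4 ∣ f.eval (t i) - (f.eval 0 + f.derivative.eval 0 * t i) := by
    intro i
    obtain ⟨k, hk⟩ := f.binomExpansion 0 (t i)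
    rw [zero_add] at hk
    rw [hk]
    obtain ⟨c, hc⟩ := ht i
    rw [hc]
    exact ⟨k * c ^ 2, by ring⟩
  induction m with
  | zero =>
    simpa using hone 0
  | succ m ih =>
    obtain ⟨a, ha⟩ := ih
    obtain ⟨b, hb⟩ := hone (m + 1)
    have hsum : π ^ 2 ∣ ∑ i ∈ range (m + 1), t i := dvd_sum (fun i _ => ht i)
    obtain ⟨S, hS⟩ := hsum
    obtain ⟨T, hT⟩ := ht (m + 1)
    rw [prod_range_succ, sum_range_succ]
    rw [sub_eq_iff_eq_add] at ha hb
    rw [ha, hb, hS, hT]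
    refine ⟨a * (f.eval 0 + f.derivative.eval 0 * (π ^ 2 * T)) + a * (π ^ 4 * b) +
      (f.eval 0 ^ (m + 1) + f.eval 0 ^ m * f.derivative.eval 0 * (π ^ 2 * S)) * b +
      f.eval 0 ^ m * f.derivative.eval 0 ^ 2 * (S * T), ?_⟩
    ring

theorem eval_Num {R : Type*} [CommRing R] (q Q : R) (u n : ℕ) (a b c d : R[X]) (s : R) :
    (Num (C q) (C Q) u n a b c d).eval s =
      Num q Q u n (a.eval s) (b.eval s) (c.eval s) (d.eval s) := by
  have := map_Num (evalRingHom s) (C q) (C Q) u n a b c d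
  simpa using this

/-- The polynomial `𝒬(t)`. -/
noncomputable def Qp {R : Type*} [CommRing R] (q Q : R) (u n : ℕ) : R[X] :=
  ∑ k ∈ range n, C (ek q Q u k * pk q Q n k 1 * pk q Q n k 1 ^ 2) *
    (Pk (C q) (C Q) n k X) ^ u

theorem eval_Pk {R : Type*} [CommRing R] (q Q : R) (n k : ℕ) (s : R) :
    (Pk (C q) (C Q) n k (X : R[X])).eval s = Pk q Q n k s := by
  have := map_Pk (evalRingHom s) (C q) (C Q) n k (X : R[X])
  simpa using this

theorem eval_Qp {R : Type*} [CommRing R] (q Q : R) (u n : ℕ) (Y Yi : R) (h : Y * Yi = 1) :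
    (Qp q Q u n).eval (Y + Yi - 2) = Num q Q u n 1 1 Y Yi := by
  unfold Qp Num
  rw [eval_finset_sum]
  apply sum_congr rfl
  intro k _
  rw [eval_mul, eval_C, eval_pow, eval_Pk, pk_mul_pk q Q n k Y Yi h]
  ring

/-- The linear coefficient. -/
noncomputable def Bc {R : Type*} [CommRing R] (q Q : R) (u n : ℕ) : R :=
  ∑ k ∈ range n, ek q Q u k * pk q Q n k 1 *
    ((Pk (C q) (C Q) n k (X : R[X])).eval 0 ^ u *
      (Pk (C q) (C Q) n k (X : R[X])).derivative.eval 0)

theorem derivative_Qp {R : Type*} [CommRing R] (q Q : R) (u n : ℕ) (hu : 1 ≤ u) :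
    (Qp q Q u n).derivative.eval 0 = u * Bc q Q u n := by
  unfold Qp Bc
  rw [derivative_sum, eval_finset_sum, mul_sum]
  apply sum_congr rfl
  intro k _
  obtain ⟨v, rfl⟩ : ∃ v, u = v + 1 := ⟨u - 1, by omega⟩
  rw [derivative_C_mul, eval_mul, eval_C, derivative_pow, eval_mul, eval_mul, eval_C, eval_pow,
    Nat.add_sub_cancel, eval_Pk, Pk_zero]
  push_cast
  ring

end NH97.QC
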