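import Mathlib
import Pool.Agent.NH97.QC.Main

open Finset Polynomial

namespace NH97.QC

theorem nat_unit_pow_ne {F : Type*} [Field F] [CharZero F] (j n : ℕ) (hn : 0 < n) :
    ((j + 2 : ℕ) : F) ^ n ≠ 1 := by
  intro h
  have h' : (j + 2) ^ n = 1 := by exact_mod_cast h
  have : 1 < (j + 2) ^ n := Nat.one_lt_pow (by omega) (by omega)
  omega

theorem inj_t (F : Type*) [Field F] [CharZero F] :
    Function.Injective (fun j : ℕ => ((j + 2 : ℕ) : F) + ((j + 2 : ℕ) : F)⁻¹ - 2) := by
  intro i j hij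
  simp only at hij
  have hi : ((i + 2 : ℕ) : F) ≠ 0 := by exact_mod_cast (by omega : i + 2 ≠ 0)
  have hj : ((j + 2 : ℕ) : F) ≠ 0 := by exact_mod_cast (by omega : j + 2 ≠ 0)
  have h : (((i + 2 : ℕ) : F) - ((j + 2 : ℕ) : F)) * (((i + 2 : ℕ) : F) * ((j + 2 : ℕ) : F) - 1)
      = 0 := by
    have h1 : ((i + 2 : ℕ) : F) + ((i + 2 : ℕ) : F)⁻¹ = ((j + 2 : ℕ) : F) + ((j + 2 : ℕ) : F)⁻¹ := by
      linear_combination hij
    field_simp at h1
    linear_combination h1
  rcases mul_eq_zero.mp h with h | h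
  · have := sub_eq_zero.mp h
    have h2 : i + 2 = j + 2 := by exact_mod_cast this
    omega
  · have := sub_eq_zero.mp h
    have h2 : (i + 2) * (j + 2) = 1 := by exact_mod_cast this
    nlinarith

theorem core {R F : Type*} [CommRing R] [IsDomain R] [Field F] [CharZero F] (res : R →+* F)
    (π : R) (hπ : π ≠ 0) (hres : res π = 0) (hker : ∀ x, res x = 0 → π ∣ x)
    (hunit : ∀ x, res x ≠ 0 → IsUnit x)
    (q : R) (hq1 : ∀ j, 0 < j → q ^ j ≠ 1) (n : ℕ) (hn : 0 < n) (hζ : (res q) ^ n = 1)
    (u M p p0 c l l0 : ℕ)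
    (hζ' : ∀ j, 0 < j → j < n → (res q ^ (2 * u + 3)) ^ j ≠ 1)
    (hu : 1 ≤ u) (hcM : (2 * u + 3) * M = c * n + 1) (hpl : l * n = (2 * u + 3) * (p + 1) + 1)
    (hp0l : l0 * n = (2 * u + 3) * p0 + u + 2) (hc : c = l * u + l0)
    (hM : M < n) (hpn : p < n) (hp0n : p0 < n) (hdeg : p0 + u * p < M)
    (r : ℕ) (hr : r = 1 ∨ (r = 2 ∧ ∀ a b c d : F,
      Num (res q) (res q ^ (2 * u + 3)) u n a b c d = 0)) :
    π ^ (r + 2) ∣ ∑ k ∈ range n, ek q (q ^ (2 * u + 3)) u k *
      pk q (q ^ (2 * u + 3)) n k 1 ^ (2 * u + 3) := by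
  set Q : R := q ^ (2 * u + 3) with hQdef
  set ζ : F := res q with hζdef
  have hζ0 : ζ ≠ 0 := by
    intro h
    rw [h, zero_pow (by omega)] at hζ
    exact zero_ne_one hζ
  obtain ⟨qi, hqi⟩ : ∃ qi, q * qi = 1 := (hunit q hζ0).exists_right_inv
  have hq0 : q ≠ 0 := by
    rintro rfl
    rw [zero_mul] at hqi
    exact zero_ne_one hqi
  have hresqi : res qi ^ n = 1 := by
    have : (res q * res qi) ^ n = 1 := by rw [← map_mul, hqi, map_one, one_pow]
    rw [mul_pow, ← hζdef, hζ, one_mul] at this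
    exact this
  have hresqn : ∀ a, res (q ^ (a * n)) = 1 := by
    intro a
    rw [map_pow, mul_comm a n, pow_mul, ← hζdef, hζ, one_pow]
  have hresqin : ∀ a, res (qi ^ (a * n)) = 1 := by
    intro a
    rw [map_pow, mul_comm a n, pow_mul, hresqi, one_pow]
  have hqqi : ∀ a, q ^ a * qi ^ a = 1 := by
    intro a
    rw [← mul_pow, hqi, one_pow]
  have hdvd : ∀ x, res x = 1 → ∃ b, x = 1 + π * b := by
    intro x hx
    obtain ⟨b, hb⟩ := hker (x - 1) (by rw [map_sub, map_one, hx, sub_self])
    exact ⟨b, by linear_combination hb⟩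
  -- elements with residue one avoid the powers of `Q`
  have havoid : ∀ x, res x = 1 → ∀ j, 0 < j → j < n → x ≠ Q ^ j := by
    intro x hx j hj1 hj2 h
    apply hζ' j hj1 hj2
    rw [← hx, h, hQdef, map_pow, map_pow]
  have hresQn : ∀ j, (res Q ^ j) ^ n = 1 := by
    intro j
    have e : ((ζ ^ (2 * u + 3)) ^ j) ^ n = (ζ ^ n) ^ ((2 * u + 3) * j) := by
      rw [← pow_mul, ← pow_mul, ← pow_mul]
      congr 1
      ring
    rw [hQdef, map_pow, ← hζdef, e, hζ, one_pow]
  have hY1 : Q ^ M * qi ^ (c * n) = q := by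
    rw [hQdef, ← pow_mul, hcM, pow_succ, mul_assoc, mul_comm q, ← mul_assoc, hqqi, one_mul]
  have hY0 : q ^ (l0 * n) = q * q ^ (u + 1) * Q ^ p0 := by
    rw [hQdef, ← pow_mul, ← pow_succ', ← pow_add, hp0l]
    congr 1
    ring
  have hYl : q ^ (l * n) = q * Q ^ (p + 1) := by
    rw [hQdef, ← pow_mul, ← pow_succ', hpl]
  -- Step 1: the polynomial `𝒬`
  have hQdvd : C (π ^ r) ∣ Qp q Q u n := by
    have hx : ∀ j : ℕ, ∃ Xi : R, ((j + 2 : ℕ) : R) * Xi = 1 := by
      intro j
      apply IsUnit.exists_right_inv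
      apply hunit
      rw [map_natCast]
      exact_mod_cast (by omega : j + 2 ≠ 0)
    choose Xi hXi using hx
    refine dvd_of_eval_dvd res π hπ hres hker (fun j => ((j + 2 : ℕ) : R) + Xi j - 2) ?_ r _ ?_
    · have : (fun j => res (((j + 2 : ℕ) : R) + Xi j - 2)) =
          (fun j : ℕ => ((j + 2 : ℕ) : F) + ((j + 2 : ℕ) : F)⁻¹ - 2) := by
        funext j
        have h2 : res (Xi j) = ((j + 2 : ℕ) : F)⁻¹ := by
          have := congrArg res (hXi j)
          rw [map_mul, map_natCast, map_one] at this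
          exact eq_inv_of_mul_eq_one_right this
        rw [map_sub, map_add, h2, map_natCast, map_ofNat]
      rw [this]
      exact inj_t F
    · intro j
      rw [eval_Qp q Q u n _ _ (hXi j)]
      set Z : R := ((j + 2 : ℕ) : R) with hZ
      have hresZ : res Z = ((j + 2 : ℕ) : F) := by rw [hZ, map_natCast]
      have hZn : (res Z) ^ n ≠ 1 := by rw [hresZ]; exact nat_unit_pow_ne j n hn
      have hresXi : res Z * res (Xi j) = 1 := by rw [← map_mul, hXi j, map_one]
      -- exact vanishing
      have hexact : Num q Q u n (qi ^ (c * n)) (q ^ (l0 * n)) Z (Xi j * q ^ (l * n)) = 0 := by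
        have := exact_vanish_dom q hq0 hq1 u n M p p0 hM hpn hp0n hdeg (qi ^ (c * n))
          (q ^ (l0 * n)) (fun _ => Z) (fun _ => Xi j * q ^ (l * n)) hY1 hY0
          (havoid _ (hresqn l0)) (by
            intro i _
            show Z * (Xi j * q ^ (l * n)) = q * Q ^ (p + 1)
            rw [← mul_assoc, hXi j, one_mul, hYl]) (by
            intro i _ a _ _ h
            apply hZn
            have h' : Z = Q ^ a := h
            rw [h', map_pow]
            exact hresQn a) (by
            intro i _ a _ _ h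
            apply hZn
            have h' : Xi j * q ^ (l * n) = Q ^ a := h
            have h2 := congrArg res h'
            rw [map_mul, hresqn, mul_one, map_pow] at h2
            have h3 : (res Z * res (Xi j)) ^ n = 1 := by rw [hresXi, one_pow]
            rw [mul_pow, h2, hresQn a, mul_one] at h3
            exact h3)
        simp only [prod_const, card_range] at this
        exact this
      obtain ⟨b1, hb1⟩ := hdvd _ (hresqin c)
      obtain ⟨b0, hb0⟩ := hdvd _ (hresqn l0)
      obtain ⟨bl, hbl⟩ := hdvd _ (hresqn l)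
      set N : R[X] := Num (C q) (C Q) u n (1 + C b1 * X) (1 + C b0 * X) (C Z)
        (C (Xi j) * (1 + C bl * X)) with hN
      have hN0 : N.eval 0 = Num q Q u n 1 1 Z (Xi j) := by
        rw [hN, eval_Num]
        simp
      have hNπ : N.eval π = 0 := by
        rw [hN, eval_Num, ← hexact, hb1, hb0, hbl]
        simp only [eval_add, eval_mul, eval_one, eval_C, eval_X]
        rw [mul_comm b1, mul_comm b0, mul_comm bl]
      rw [← hN0]
      rcases hr with hr | ⟨hr, hF1⟩
      · rw [hr, pow_one]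
        have := sub_dvd_eval_sub 0 π N
        rw [hNπ, sub_zero, zero_sub, neg_dvd] at this
        exact this
      · have hmap : N.map res = 0 := by
          apply Polynomial.funext
          intro s
          rw [eval_zero, hN]
          have e1 : (Num (C q) (C Q) u n (1 + C b1 * X) (1 + C b0 * X) (C Z)
            (C (Xi j) * (1 + C bl * X))).map res = Num (C (res q)) (C (res Q)) u n
              (1 + C (res b1) * X) (1 + C (res b0) * X) (C (res Z))
              (C (res (Xi j)) * (1 + C (res bl) * X)) := by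
            have := map_Num (mapRingHom res) (C q) (C Q) u n (1 + C b1 * X) (1 + C b0 * X) (C Z)
              (C (Xi j) * (1 + C bl * X))
            simpa using this
          rw [e1, eval_Num, hQdef, map_pow]
          exact hF1 _ _ _ _
        have hCπ : C π ∣ N := by
          rw [C_dvd_iff_dvd_coeff]
          intro i
          apply hker
          rw [← coeff_map, hmap, coeff_zero]
        obtain ⟨N', hN'⟩ := hCπ
        have h1 := sub_dvd_eval_sub 0 π N'
        rw [zero_sub, neg_dvd] at h1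
        obtain ⟨w, hw⟩ := h1
        have h2 : N.eval 0 = π * (N'.eval 0 - N'.eval π) := by
          have h3 : N.eval 0 = N.eval 0 - N.eval π := by rw [hNπ, sub_zero]
          rw [h3, hN', eval_mul, eval_mul, eval_C, eval_C]
          ring
        rw [h2, hw, hr]
        exact ⟨w, by ring⟩
  -- Step 2: the linear coefficient
  have hB : π ^ r ∣ Bc q Q u n := by
    obtain ⟨g, hg⟩ := hQdvd
    have h1 := derivative_Qp q Q u n hu
    rw [hg, derivative_C_mul, eval_mul, eval_C] at h1
    obtain ⟨ui, hui⟩ : ∃ ui : R, (u : R) * ui = 1 := by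
      apply IsUnit.exists_right_inv
      apply hunit
      rw [map_natCast]
      exact_mod_cast (by omega : u ≠ 0)
    refine ⟨g.derivative.eval 0 * ui, ?_⟩
    linear_combination (-(Bc q Q u n)) * hui - ui * h1
  -- Step 3: the exact zero near the base point
  have huu : ∀ i, i ≤ u → l * i ≤ c := by
    intro i hi
    rw [hc]
    nlinarith [Nat.mul_le_mul_left l hi]
  set w : ℕ → ℕ := fun i => c - l * i with hw
  have hw0 : w 0 = c := by simp [hw]
  have hwu : w u = l0 := by simp only [hw]; omega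
  have hws : ∀ i < u, w i = w (i + 1) + l := by
    intro i hi
    simp only [hw]
    have h1 := huu (i + 1) (by omega)
    have h2 := huu i (by omega)
    have h3 : l * (i + 1) = l * i + l := by ring
    omega
  have hexact : ∑ k ∈ range n, ek q Q u k * pk q Q n k 1 *
      ∏ i ∈ range (u + 1), Pk q Q n k (q ^ (w i * n) + qi ^ (w i * n) - 2) = 0 := by
    have h := exact_vanish_dom q hq0 hq1 u n M p p0 hM hpn hp0n hdeg (qi ^ (c * n))
          (q ^ (l0 * n)) (fun i => q ^ (w i * n)) (fun i => qi ^ (w (i + 1) * n)) hY1 hY0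
          (havoid _ (hresqn l0)) (by
            intro i hi
            show q ^ (w i * n) * qi ^ (w (i + 1) * n) = q * Q ^ (p + 1)
            rw [← hYl, hws i hi, add_mul, pow_add, mul_right_comm, hqqi, one_mul])
          (fun i _ => havoid _ (hresqn _)) (fun i _ => havoid _ (hresqin _))
    rw [← h]
    apply sum_congr rfl
    intro k _
    have e1 : ∏ i ∈ range (u + 1), Pk q Q n k (q ^ (w i * n) + qi ^ (w i * n) - 2) =
        (∏ i ∈ range (u + 1), pk q Q n k (q ^ (w i * n))) *
        ∏ i ∈ range (u + 1), pk q Q n k (qi ^ (w i * n)) := by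
      rw [← prod_mul_distrib]
      apply prod_congr rfl
      intro i _
      rw [pk_mul_pk q Q n k _ _ (hqqi _)]
    rw [e1, prod_range_succ (fun i => pk q Q n k (q ^ (w i * n))),
      prod_range_succ' (fun i => pk q Q n k (qi ^ (w i * n))), hw0, hwu, prod_mul_distrib]
    ring
  have ht : ∀ i, π ^ 2 ∣ q ^ (w i * n) + qi ^ (w i * n) - 2 := by
    intro i
    obtain ⟨b, hb⟩ := hdvd _ (hresqn (w i))
    have h1 := hqqi (w i * n)
    refine ⟨qi ^ (w i * n) * b ^ 2, ?_⟩
    have h2 : q ^ (w i * n) + qi ^ (w i * n) - 2 =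
        qi ^ (w i * n) * (q ^ (w i * n) - 1) ^ 2 := by
      linear_combination (-(q ^ (w i * n)) + 2) * h1
    rw [h2, hb]
    ring
  -- Step 4: expansion
  set T : R := ∑ i ∈ range (u + 1), (q ^ (w i * n) + qi ^ (w i * n) - 2) with hT
  have hTd : π ^ 2 ∣ T := dvd_sum (fun i _ => ht i)
  have hexp : π ^ 4 ∣ (∑ k ∈ range n, ek q Q u k * pk q Q n k 1 ^ (2 * u + 3)) +
      T * Bc q Q u n := by
    have hterm : ∀ k ∈ range n, π ^ 4 ∣ ek q Q u k * pk q Q n k 1 *
        ∏ i ∈ range (u + 1), Pk q Q n k (q ^ (w i * n) + qi ^ (w i * n) - 2) -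
        (ek q Q u k * pk q Q n k 1 ^ (2 * u + 3) + T * (ek q Q u k * pk q Q n k 1 *
    ((Pk (C q) (C Q) n k (X : R[X])).eval 0 ^ u *
      (Pk (C q) (C Q) n k (X : R[X])).derivative.eval 0))) := by
      intro k _
      have h := prod_expand π (Pk (C q) (C Q) n k (X : R[X]))
        (fun i => q ^ (w i * n) + qi ^ (w i * n) - 2) ht u
      simp only [eval_Pk] at h
      obtain ⟨a, ha⟩ := h
      refine ⟨ek q Q u k * pk q Q n k 1 * a, ?_⟩
      rw [sub_eq_iff_eq_add] at ha
      rw [ha, eval_Pk, ← hT]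
      have e : pk q Q n k 1 ^ (2 * u + 3) = pk q Q n k 1 * (Pk q Q n k 0) ^ (u + 1) := by
        rw [Pk_zero]; ring
      rw [e]
      ring
    have hsum := dvd_sum hterm
    rw [sum_sub_distrib, hexact, zero_sub, dvd_neg, sum_add_distrib, ← mul_sum] at hsum
    exact hsum
  -- conclusion
  have hr4 : π ^ (r + 2) ∣ π ^ 4 := pow_dvd_pow π (by rcases hr with h | ⟨h, _⟩ <;> omega)
  have h5 : π ^ (r + 2) ∣ T * Bc q Q u n := by
    rw [add_comm r 2, pow_add]
    exact mul_dvd_mul hTd hB
  exact (dvd_add_left h5).mp (hr4.trans hexp)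

end NH97.QC
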