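import Mathlib
import Pool.Agent.NH97.QC.Core

open Finset Polynomial

namespace NH97.QC

/-- The base point `q = ζ + h` in `ℂ⟦h⟧`. -/
noncomputable def qps (ζ : ℂ) : PowerSeries ℂ := ((X + C ζ : ℂ[X]) : PowerSeries ℂ)

theorem qps_res (ζ : ℂ) : PowerSeries.constantCoeff (R := ℂ) (qps ζ) = ζ := by
  unfold qps
  rw [← PowerSeries.coeff_zero_eq_constantCoeff_apply, Polynomial.coeff_coe]
  simp

theorem qps_pow_ne_one (ζ : ℂ) (j : ℕ) (hj : 0 < j) : qps ζ ^ j ≠ 1 := by
  unfold qps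
  intro h
  rw [← Polynomial.coe_pow, ← Polynomial.coe_one, Polynomial.coe_inj] at h
  have h1 : ((X + C ζ : ℂ[X]) ^ j).natDegree = j := by
    rw [natDegree_pow, natDegree_X_add_C, mul_one]
  rw [h, natDegree_one] at h1
  omega

/-- The numerator as an integer polynomial. -/
noncomputable def numP (u n : ℕ) : ℤ[X] :=
  ∑ k ∈ range n, ek (X : ℤ[X]) (X ^ (2 * u + 3)) u k *
    pk (X : ℤ[X]) (X ^ (2 * u + 3)) n k 1 ^ (2 * u + 3)

theorem root_dvd (u n r : ℕ) (ζ : ℂ)
    (h : (PowerSeries.X : PowerSeries ℂ) ^ r ∣ ∑ k ∈ range n, ek (qps ζ) (qps ζ ^ (2 * u + 3)) u k *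
      pk (qps ζ) (qps ζ ^ (2 * u + 3)) n k 1 ^ (2 * u + 3)) :
    (X - C ζ) ^ r ∣ (numP u n).map (Int.castRingHom ℂ) := by
  set P : ℂ[X] := (numP u n).map (Int.castRingHom ℂ) with hP
  have e : ((P.comp (X + C ζ) : ℂ[X]) : PowerSeries ℂ) =
      ∑ k ∈ range n, ek (qps ζ) (qps ζ ^ (2 * u + 3)) u k *
      pk (qps ζ) (qps ζ ^ (2 * u + 3)) n k 1 ^ (2 * u + 3) := by
    set φ : ℤ[X] →+* PowerSeries ℂ := ((Polynomial.coeToPowerSeries.ringHom (R := ℂ)).comp
      (compRingHom (X + C ζ))).comp (mapRingHom (Int.castRingHom ℂ)) with hφ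
    have hX : φ X = qps ζ := by
      simp [hφ, qps]
    have h1 : φ (numP u n) = ((P.comp (X + C ζ) : ℂ[X]) : PowerSeries ℂ) := by
      simp [hφ, hP]
    rw [← h1]
    unfold numP
    rw [map_sum]
    simp only [map_mul, map_pow, map_ek, map_pk, hX, map_one]
  rw [← e] at h
  have h2 : X ^ r ∣ P.comp (X + C ζ) := by
    rw [Polynomial.X_pow_dvd_iff]
    rw [PowerSeries.X_pow_dvd_iff] at h
    intro d hd
    have := h d hd
    rwa [Polynomial.coeff_coe] at this
  obtain ⟨W, hW⟩ := h2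
  refine ⟨W.comp (X - C ζ), ?_⟩
  have h3 := congrArg (fun p : ℂ[X] => p.comp (X - C ζ)) hW
  simp only [mul_comp, pow_comp, X_comp] at h3
  rw [comp_assoc] at h3
  simpa using h3

theorem cyclo_dvd (u n r : ℕ) (hn : 0 < n)
    (h : ∀ ζ : ℂ, IsPrimitiveRoot ζ n → (X - C ζ) ^ r ∣ (numP u n).map (Int.castRingHom ℂ)) :
    (cyclotomic n ℤ) ^ r ∣ numP u n := by
  have hζ := Complex.isPrimitiveRoot_exp n (by omega)
  rw [← Polynomial.map_dvd_map (Int.castRingHom ℂ) (RingHom.injective_int _)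
    ((cyclotomic.monic n ℤ).pow r), Polynomial.map_pow, map_cyclotomic_int,
    cyclotomic_eq_prod_X_sub_primitiveRoots hζ, ← prod_pow]
  apply Finset.prod_dvd_of_coprime
  · intro a _ b _ hab
    exact IsCoprime.pow (pairwise_coprime_X_sub_C (fun _ _ h => h) hab)
  · intro a ha
    exact h a (isPrimitiveRoot_of_mem_primitiveRoots ha)

/-- The algebraic congruence for a primitive root of unity. -/
theorem root_core (ζ : ℂ) (n : ℕ) (hn : 0 < n) (hζ : IsPrimitiveRoot ζ n)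
    (u M p p0 c l l0 : ℕ)
    (hu : 1 ≤ u) (hcM : (2 * u + 3) * M = c * n + 1) (hpl : l * n = (2 * u + 3) * (p + 1) + 1)
    (hp0l : l0 * n = (2 * u + 3) * p0 + u + 2) (hc : c = l * u + l0)
    (hM : M < n) (hpn : p < n) (hp0n : p0 < n) (hdeg : p0 + u * p < M)
    (r : ℕ) (hr : r = 1 ∨ (r = 2 ∧ Odd c)) :
    (X - C ζ) ^ (r + 2) ∣ (numP u n).map (Int.castRingHom ℂ) := by
  apply root_dvd
  have hcop : Nat.Coprime (2 * u + 3) n := by
    rw [Nat.coprime_iff_gcd_eq_one]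
    have h1 : Nat.gcd (2 * u + 3) n ∣ c * n + 1 := by
      rw [← hcM]; exact (Nat.gcd_dvd_left _ _).mul_right _
    have h2 : Nat.gcd (2 * u + 3) n ∣ c * n := (Nat.gcd_dvd_right _ _).mul_left _
    exact Nat.dvd_one.mp ((Nat.dvd_add_right h2).mp h1)
  refine core (PowerSeries.constantCoeff (R := ℂ)) PowerSeries.X PowerSeries.X_ne_zero (by simp)
    (fun x hx => PowerSeries.X_dvd_iff.mpr hx)
    (fun x hx => PowerSeries.isUnit_iff_constantCoeff.mpr (isUnit_iff_ne_zero.mpr hx))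
    (qps ζ) (qps_pow_ne_one ζ) n hn (by rw [qps_res]; exact hζ.pow_eq_one) u M p p0 c l l0 ?_
    hu hcM hpl hp0l hc hM hpn hp0n hdeg r ?_
  · intro j hj1 hj2
    rw [qps_res, ← pow_mul]
    intro h
    have h1 := (hζ.pow_eq_one_iff_dvd _).mp h
    have h2 := hcop.symm.dvd_of_dvd_mul_left h1
    exact absurd (Nat.le_of_dvd hj1 h2) (by omega)
  · rcases hr with h | ⟨h, hodd⟩
    · exact Or.inl h
    · refine Or.inr ⟨h, ?_⟩
      intro a b c' d
      rw [qps_res]
      have hQM : (ζ ^ (2 * u + 3)) ^ M = ζ := by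
        rw [← pow_mul, hcM, pow_succ, mul_comm c n, pow_mul, hζ.pow_eq_one, one_pow, one_mul]
      have key := antisymm_vanish (ζ ^ (2 * u + 3)) u n M hM ?_ ?_ a b c' d
      · rw [hQM] at key
        exact key
      · intro t ht
        rw [← pow_mul, show (2 * u + 3) * ((2 * u + 3) * t + 2 * (u + 1)) =
          n * (c * (2 * u + 3)) by
            have : (2 * u + 3) * t + 2 * (u + 1) = c * n := by
              have h1 : (2 * u + 3) * (t + 1) = c * n + 1 := by rw [ht, hcM]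
              nlinarith
            rw [this]; ring, pow_mul, hζ.pow_eq_one, one_pow]
      · intro h' hh'
        have h1 : 2 * ((2 * u + 3) * h' + (u + 1)) = c * n := by
          rw [hh'] at hcM
          nlinarith
        have hneven : Even n := by
          have h2 : Even (c * n) := ⟨(2 * u + 3) * h' + (u + 1), by omega⟩
          rcases Nat.even_mul.mp h2 with h3 | h3
          · exact absurd h3 (Nat.not_even_iff_odd.mpr hodd)
          · exact h3
        obtain ⟨n', hn'⟩ := hneven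
        have h3 : (2 * u + 3) * h' + (u + 1) = c * n' := by
          have : 2 * ((2 * u + 3) * h' + (u + 1)) = 2 * (c * n') := by
            rw [h1, hn']; ring
          omega
        have h4 : ζ ^ n' = -1 := by
          have h5 : (ζ ^ n') ^ 2 = 1 := by
            rw [← pow_mul, mul_two, ← hn', hζ.pow_eq_one]
          rw [sq] at h5
          rcases mul_self_eq_one_iff.mp h5 with h6 | h6
          · exfalso
            have h7 := (hζ.pow_eq_one_iff_dvd _).mp h6
            have := Nat.le_of_dvd (by omega) h7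
            omega
          · exact h6
        rw [h3, ← pow_mul, show (2 * u + 3) * (c * n') = n' * ((2 * u + 3) * c) by ring, pow_mul,
          h4, Odd.neg_one_pow]
        exact Nat.odd_mul.mpr ⟨⟨u + 1, by ring⟩, hodd⟩

theorem numP_case_a (u n : ℕ) (hu : 1 ≤ u) (hn : 1 < n) (h : n % (2 * u + 3) = 1) :
    (cyclotomic n ℤ) ^ 3 ∣ numP u n := by
  obtain ⟨t, ht⟩ : ∃ t, n = (2 * u + 3) * t + 1 := by
    refine ⟨n / (2 * u + 3), ?_⟩
    have := Nat.div_add_mod n (2 * u + 3)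
    omega
  have ht1 : 1 ≤ t := by
    rcases Nat.eq_zero_or_pos t with rfl | h'
    · omega
    · exact h'
  obtain ⟨s, rfl⟩ : ∃ s, t = s + 1 := ⟨t - 1, by omega⟩
  apply cyclo_dvd u n 3 (by omega)
  intro ζ hζ
  refine root_core ζ n (by omega) hζ u ((2 * u + 2) * (s + 1) + 1) s ((u + 2) * (s + 1))
    (2 * u + 2) 1 (u + 2) hu ?_ ?_ ?_ ?_ ?_ ?_ ?_ ?_ 1 (Or.inl rfl)
  · rw [ht]; ring
  · rw [ht]; ring
  · rw [ht]; ring
  · ring
  · rw [ht]; nlinarith
  · rw [ht]; nlinarith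
  · rw [ht]; nlinarith
  · nlinarith

theorem numP_case_b (u n : ℕ) (hu : 1 ≤ u) (hn : 1 < n) (h : 2 * n % (2 * u + 3) = 1) :
    (cyclotomic n ℤ) ^ 4 ∣ numP u n := by
  obtain ⟨r, hr⟩ : ∃ r, n = (2 * u + 3) * r + (u + 2) := by
    have h1 := Nat.div_add_mod (2 * n) (2 * u + 3)
    rw [h] at h1
    set t := 2 * n / (2 * u + 3)
    rcases Nat.even_or_odd' t with ⟨r, hr | hr⟩
    · exfalso
      rw [hr] at h1
      have : (2 * u + 3) * (2 * r) = 2 * ((2 * u + 3) * r) := by ring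
      omega
    · refine ⟨r, ?_⟩
      rw [hr] at h1
      have : (2 * u + 3) * (2 * r + 1) = 2 * ((2 * u + 3) * r) + (2 * u + 3) := by ring
      omega
  apply cyclo_dvd u n 4 (by omega)
  intro ζ hζ
  refine root_core ζ n (by omega) hζ u ((2 * u + 1) * r + u + 1) (2 * r) r
    (2 * u + 1) 2 1 hu ?_ ?_ ?_ ?_ ?_ ?_ ?_ ?_ 2 (Or.inr ⟨rfl, ⟨u, by ring⟩⟩)
  · rw [hr]; ring
  · rw [hr]; ring
  · rw [hr]; ring
  · ring
  · rw [hr]; nlinarith
  · rw [hr]; nlinarith
  · rw [hr]; nlinarith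
  · nlinarith

end NH97.QC
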