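import Mathlib
import Pool.Agent.NH97.QC.Cyclo

open Finset Polynomial

namespace NH97.QC

/-- The `q`-integer `[m] = (1 - q ^ m) / (1 - q)`, `m ∈ ℤ`, in `ℚ(q)`. -/
noncomputable def qint (m : ℤ) : RatFunc ℚ := (1 - RatFunc.X ^ m) / (1 - RatFunc.X)

/-- The shifted factorial `(a; b)_k = (1 - a)(1 - a b)⋯(1 - a b ^ (k-1))`. -/
noncomputable def poch (a b : RatFunc ℚ) (k : ℕ) : RatFunc ℚ := ∏ i ∈ range k, (1 - a * b ^ i)

/-- The sum
`S_{d,n}(q) = ∑_{k<n} q ^ (d (d-1) k / 2) [2dk-1] ((q⁻¹; q^d)_k / (q^d; q^d)_k) ^ d`. -/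
noncomputable def Sdn (d n : ℕ) : RatFunc ℚ :=
  ∑ k ∈ range n, RatFunc.X ^ (d * (d - 1) * k / 2) * qint (2 * d * k - 1) *
    (poch (RatFunc.X)⁻¹ (RatFunc.X ^ d) k / poch (RatFunc.X ^ d) (RatFunc.X ^ d) k) ^ d

/-- The embedding of `ℤ[q]` into `ℚ(q)`. -/
noncomputable def emb : ℤ[X] →+* RatFunc ℚ :=
  (algebraMap ℚ[X] (RatFunc ℚ)).comp (mapRingHom (Int.castRingHom ℚ))

/-- `R ≡ 0` modulo `Φ_n(q) ^ m`: one can write `R = A / B` with `A, B ∈ ℤ[q]`, `Φ_n ^ m ∣ A` and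
`B` coprime to `Φ_n`. -/
def CongZero (R : RatFunc ℚ) (n m : ℕ) : Prop :=
  ∃ A B : ℤ[X], B ≠ 0 ∧ R = emb A / emb B ∧ (cyclotomic n ℤ) ^ m ∣ A ∧
    IsRelPrime B (cyclotomic n ℤ)

theorem emb_injective : Function.Injective emb := by
  unfold emb
  exact (IsFractionRing.injective ℚ[X] (RatFunc ℚ)).comp
    (Polynomial.map_injective _ (RingHom.injective_int _))

theorem emb_X : emb X = RatFunc.X := by
  simp [emb, RatFunc.algebraMap_X]

/-- The denominator. -/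
noncomputable def denP (u n : ℕ) : ℤ[X] :=
  X * (1 - X) * pk (X : ℤ[X]) (X ^ (2 * u + 3)) n 0 1 ^ (2 * u + 3)

theorem denP_eval_ne (u n : ℕ) (ζ : ℂ) (hζ : IsPrimitiveRoot ζ n) (hn : 1 < n)
    (hcop : Nat.Coprime (2 * u + 3) n) :
    ((denP u n).map (Int.castRingHom ℂ)).eval ζ ≠ 0 := by
  have e : ((denP u n).map (Int.castRingHom ℂ)).eval ζ =
      ζ * (1 - ζ) * pk ζ (ζ ^ (2 * u + 3)) n 0 1 ^ (2 * u + 3) := by
    unfold denP
    have := map_pk ((evalRingHom ζ).comp (mapRingHom (Int.castRingHom ℂ))) (X : ℤ[X])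
      (X ^ (2 * u + 3)) n 0 1
    simp only [RingHom.comp_apply, coe_mapRingHom, coe_evalRingHom, Polynomial.map_pow, map_X,
      eval_pow, eval_X, Polynomial.map_one, eval_one] at this
    simp [this]
  rw [e]
  have h0 : ζ ≠ 0 := hζ.ne_zero (by omega)
  refine mul_ne_zero (mul_ne_zero h0 (sub_ne_zero.mpr (hζ.ne_one hn).symm)) (pow_ne_zero _ ?_)
  unfold pk
  rw [range_zero, prod_empty, one_mul, prod_ne_zero_iff]
  intro i hi
  rw [mem_Ico] at hi
  rw [sub_ne_zero, ← pow_mul]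
  intro h
  have h1 := (hζ.pow_eq_one_iff_dvd _).mp h.symm
  have h2 := hcop.symm.dvd_of_dvd_mul_left h1
  exact absurd (Nat.le_of_dvd (by omega) h2) (by omega)

theorem denP_ne_zero (u n : ℕ) (hn : 1 < n) (hcop : Nat.Coprime (2 * u + 3) n) :
    denP u n ≠ 0 := by
  intro h
  apply denP_eval_ne u n _ (Complex.isPrimitiveRoot_exp n (by omega)) hn hcop
  rw [h]
  simp

theorem denP_isRelPrime (u n : ℕ) (hn : 1 < n) (hcop : Nat.Coprime (2 * u + 3) n) :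
    IsRelPrime (denP u n) (cyclotomic n ℤ) := by
  have hirr : Irreducible (cyclotomic n ℤ) := cyclotomic.irreducible (by omega)
  rw [isRelPrime_comm, hirr.isRelPrime_iff_not_dvd]
  rintro ⟨W, hW⟩
  have hζ := Complex.isPrimitiveRoot_exp n (by omega)
  apply denP_eval_ne u n _ hζ hn hcop
  rw [hW, Polynomial.map_mul, map_cyclotomic_int, eval_mul]
  have : (cyclotomic n ℂ).eval (Complex.exp (2 * Real.pi * Complex.I / n)) = 0 :=
    hζ.isRoot_cyclotomic (by omega)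
  rw [this, zero_mul]

theorem X_ne_zero' : (RatFunc.X : RatFunc ℚ) ≠ 0 := RatFunc.X_ne_zero

theorem X_pow_ne_one (j : ℕ) (hj : 0 < j) : (RatFunc.X : RatFunc ℚ) ^ j ≠ 1 := by
  intro h
  rw [← emb_X, ← map_pow, ← map_one emb] at h
  have h1 := emb_injective h
  have h2 := congrArg natDegree h1
  rw [natDegree_X_pow, natDegree_one] at h2
  omega

theorem term_eq (u n k : ℕ) (hk : k < n) :
    (RatFunc.X : RatFunc ℚ) ^ ((2 * u + 3) * ((2 * u + 3) - 1) * k / 2) *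
      qint (2 * ((2 * u + 3 : ℕ) : ℤ) * k - 1) *
    (poch (RatFunc.X)⁻¹ (RatFunc.X ^ (2 * u + 3)) k /
      poch (RatFunc.X ^ (2 * u + 3)) (RatFunc.X ^ (2 * u + 3)) k) ^ (2 * u + 3) =
    ek (RatFunc.X : RatFunc ℚ) (RatFunc.X ^ (2 * u + 3)) u k *
      pk (RatFunc.X : RatFunc ℚ) (RatFunc.X ^ (2 * u + 3)) n k 1 ^ (2 * u + 3) /
      (RatFunc.X * (1 - RatFunc.X) *
        pk (RatFunc.X : RatFunc ℚ) (RatFunc.X ^ (2 * u + 3)) n 0 1 ^ (2 * u + 3)) := by
  set x : RatFunc ℚ := RatFunc.X with hx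
  have hx0 : x ≠ 0 := X_ne_zero'
  set Q : RatFunc ℚ := x ^ (2 * u + 3) with hQ
  have hQ0 : Q ≠ 0 := pow_ne_zero _ hx0
  have h1x : 1 - x ≠ 0 := by
    have := X_pow_ne_one 1 one_pos
    rw [pow_one] at this
    exact sub_ne_zero.mpr this.symm
  have hQ1 : ∀ i, 1 - Q ^ (i + 1) ≠ 0 := by
    intro i
    rw [hQ, ← pow_mul]
    exact sub_ne_zero.mpr (X_pow_ne_one _ (by positivity)).symm
  -- the two Pochhammer symbols
  have e1 : poch x⁻¹ Q k * x ^ k = ∏ i ∈ range k, (x - Q ^ i * 1) := by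
    unfold poch
    rw [show x ^ k = ∏ i ∈ range k, x by simp, ← prod_mul_distrib]
    apply prod_congr rfl
    intro i _
    field_simp
  have e2 : poch Q Q k = ∏ i ∈ range k, (1 - Q ^ (i + 1)) := by
    unfold poch
    apply prod_congr rfl
    intro i _
    rw [pow_succ]; ring
  have e2ne : ∏ i ∈ range k, (1 - Q ^ (i + 1)) ≠ 0 :=
    prod_ne_zero_iff.mpr (fun i _ => hQ1 i)
  have e3ne : ∏ i ∈ Ico k (n - 1), (1 - Q ^ (i + 1)) ≠ 0 :=
    prod_ne_zero_iff.mpr (fun i _ => hQ1 i)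
  have e3 : pk x Q n 0 1 = (∏ i ∈ range k, (1 - Q ^ (i + 1))) *
      ∏ i ∈ Ico k (n - 1), (1 - Q ^ (i + 1)) := by
    unfold pk
    rw [range_zero, prod_empty, one_mul, range_eq_Ico,
      prod_Ico_consecutive _ (by omega) (by omega)]
  have e4 : pk x Q n k 1 = (∏ i ∈ range k, (x - Q ^ i * 1)) *
      ∏ i ∈ Ico k (n - 1), (1 - Q ^ (i + 1)) := rfl
  have ratio : poch x⁻¹ Q k / poch Q Q k = pk x Q n k 1 / (x ^ k * pk x Q n 0 1) := by
    rw [e4, e3, ← e1, e2]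
    field_simp
  have hpk0 : pk x Q n 0 1 ≠ 0 := by rw [e3]; exact mul_ne_zero e2ne e3ne
  rw [ratio]
  have hexp : (2 * u + 3) * ((2 * u + 3) - 1) * k / 2 = (2 * u + 3) * (u * k) +
      (2 * u + 3) * k := by
    rw [show (2 * u + 3) * ((2 * u + 3) - 1) * k = 2 * ((2 * u + 3) * (u * k) +
      (2 * u + 3) * k) by
        rw [show (2 * u + 3) - 1 = 2 * (u + 1) by omega]; ring]
    exact Nat.mul_div_cancel_left _ (by norm_num)
  have hzpow : x ^ (2 * ((2 * u + 3 : ℕ) : ℤ) * k - 1) * x = Q ^ (2 * k) := by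
    rw [← zpow_add_one₀ hx0, hQ, ← pow_mul, ← zpow_natCast]
    congr 1
    push_cast
    ring
  have hqint : qint (2 * ((2 * u + 3 : ℕ) : ℤ) * k - 1) = (x - Q ^ (2 * k)) / (x * (1 - x)) := by
    unfold qint
    rw [← hzpow, ← hx]
    field_simp
  rw [hqint, hexp]
  unfold ek
  have hQuk : Q ^ (u * k) = x ^ ((2 * u + 3) * (u * k)) := by rw [hQ, ← pow_mul]
  have hxk' : (x ^ k) ^ (2 * u + 3) = x ^ ((2 * u + 3) * k) := by rw [← pow_mul, mul_comm k]
  rw [hQuk, div_pow, mul_pow, hxk', pow_add]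
  have hxk : x ^ ((2 * u + 3) * k) ≠ 0 := pow_ne_zero _ hx0
  field_simp

theorem Sdn_eq (u n : ℕ) :
    Sdn (2 * u + 3) n = emb (numP u n) / emb (denP u n) := by
  have hden : emb (denP u n) = RatFunc.X * (1 - RatFunc.X) *
        pk (RatFunc.X : RatFunc ℚ) (RatFunc.X ^ (2 * u + 3)) n 0 1 ^ (2 * u + 3) := by
    unfold denP
    rw [map_mul, map_mul, map_pow, map_pk, map_pow, map_sub, map_one, emb_X]
  have hnum : emb (numP u n) = ∑ k ∈ range n, ek (RatFunc.X : RatFunc ℚ)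
      (RatFunc.X ^ (2 * u + 3)) u k *
      pk (RatFunc.X : RatFunc ℚ) (RatFunc.X ^ (2 * u + 3)) n k 1 ^ (2 * u + 3) := by
    unfold numP
    rw [map_sum]
    simp only [map_mul, map_pow, map_pk, map_ek, map_one, emb_X]
  rw [hden, hnum, sum_div]
  unfold Sdn
  apply sum_congr rfl
  intro k hk
  rw [mem_range] at hk
  have := term_eq u n k hk
  rw [← this]

theorem main (d n : ℕ) (hd : Odd d) (hd5 : 5 ≤ d) (hn : 1 < n) :
    (n ≡ 1 [MOD d] → CongZero (Sdn d n) n 3) ∧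
    (2 * n ≡ 1 [MOD d] → CongZero (Sdn d n) n 4) := by
  obtain ⟨u, rfl⟩ : ∃ u, d = 2 * u + 3 := by
    obtain ⟨t, ht⟩ := hd
    exact ⟨t - 1, by omega⟩
  have hu : 1 ≤ u := by omega
  have h1 : 1 % (2 * u + 3) = 1 := Nat.mod_eq_of_lt (by omega)
  constructor
  · intro h
    have h' : n % (2 * u + 3) = 1 := by
      unfold Nat.ModEq at h
      rw [h, h1]
    have hcop : Nat.Coprime (2 * u + 3) n := by
      rw [Nat.coprime_iff_gcd_eq_one, Nat.gcd_rec, h']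
      simp
    exact ⟨numP u n, denP u n, denP_ne_zero u n hn hcop, Sdn_eq u n, numP_case_a u n hu hn h',
      denP_isRelPrime u n hn hcop⟩
  · intro h
    have h' : 2 * n % (2 * u + 3) = 1 := by
      unfold Nat.ModEq at h
      rw [h, h1]
    have hcop2 : Nat.Coprime (2 * u + 3) (2 * n) := by
      rw [Nat.coprime_iff_gcd_eq_one, Nat.gcd_rec, h']
      simp
    have hcop : Nat.Coprime (2 * u + 3) n := Nat.Coprime.coprime_mul_left_right hcop2
    exact ⟨numP u n, denP u n, denP_ne_zero u n hn hcop, Sdn_eq u n, numP_case_b u n hu hn h',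
      denP_isRelPrime u n hn hcop⟩

end NH97.QC
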